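import Pool.Agent.Y809.Q440.Dig

/-! Comparison of the records of type 10. -/

set_option autoImplicit false
set_option maxRecDepth 100000

namespace Pool.Agent.Y809.Q440

open Pool.Agent.Y440 Pool.Agent.Y440.K
open Pool.Agent.Y440.B (al bc st tb st_eq)

noncomputable section

def H10 : ℕ := 0x8000000000000080000000000000800000000000008000000000000080000000000000800000000000008000000000000080000000000000800000000000008000000000000000000000000000
def M47_0 : ℕ := 0xffffffffffffffffffffffffffffffffffffffffffffffffffffffffffffffffffffffffffffffffffffffffffffffffffffffffffffffffffffffffffffffffffffffffffff00000000000000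
def N47 : ℕ := 0xffffffffffffffffffffffffffffffffffffffffffffffffffffffffffffffffffffffffffffffffffffffffffffffffffffffffffffffffffffffffffffffffffffffffffff00000000000000
def S47 : ℕ := 0
def V47 : ℕ := 0
def l47 : List (ℕ × ℕ × ℕ) := [(0, 0, M47_0)]
def z47 (X : ℕ) : ℕ := Nat.lor (en 0 0 M47_0 X) 0
def r47 (f X : ℕ) : Bool := st (fun g => st (fun Y => cw N47 S47 V47 z47 X Y) (gb10 g)) (tb gf47 10 1024 f)
def M48_0 : ℕ := 0xffffffffffffffffffffffffffffffffffffffffff00000000000000ffffffffffffff00000000000000ffffffffffffffffffffffffffffffffffffffffffffffffffffffff00000000000000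
def M48_1 : ℕ := 0xffffffffffffff0000000000000000000000000000000000000000000000000000000000000000000000
def M48_2 : ℕ := 0xffffffffffffff00000000000000000000000000000000000000000000000000000000000000000000000000000000000000000000000000
def N48 : ℕ := 0xffffffffffffffffffffffffffffffffffffffffffffffffffffffff00000000000000ffffffffffffffffffffffffffffffffffffffffffffffffffffffffffffffffffffff00000000000000
def S48 : ℕ := 0xffffffffffffff000000000000000000000000000000000000000000000000000000000000000000000000000000000000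
def V48 : ℕ := 0xaf0000000000000000000000000000000000000000000000000000000000000000000000000000000000000
def l48 : List (ℕ × ℕ × ℕ) := [(0, 0, M48_0), (0, 2, M48_1), (2, 0, M48_2)]
def z48 (X : ℕ) : ℕ := Nat.lor (en 0 0 M48_0 X) (Nat.lor (en 0 2 M48_1 X) (Nat.lor (en 2 0 M48_2 X) 0))
def r48 (f X : ℕ) : Bool := st (fun g => st (fun Y => cw N48 S48 V48 z48 X Y) (gb10 g)) (tb gf48 10 1024 f)
def M49_0 : ℕ := 0xffffffffffffffffffffffffffffffffffffffffff0000000000000000000000000000ffffffffffffffffffffffffffffffffffffffffffffffffffffffffffffffffffffff00000000000000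
def M49_1 : ℕ := 0xffffffffffffff000000000000000000000000000000000000000000000000000000000000000000000000000000000000
def M49_2 : ℕ := 0xffffffffffffff00000000000000000000000000000000000000000000000000000000000000000000000000000000000000000000000000
def N49 : ℕ := 0xffffffffffffffffffffffffffffffffffffffffffffffffffffffffffffffffffffff00000000000000ffffffffffffffffffffffffffffffffffffffffffffffffffffffff00000000000000
def S49 : ℕ := 0xffffffffffffff0000000000000000000000000000000000000000000000000000000000000000000000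
def V49 : ℕ := 0xaf00000000000000000000000000000000000000000000000000000000000000000000000
def l49 : List (ℕ × ℕ × ℕ) := [(0, 0, M49_0), (0, 1, M49_1), (1, 0, M49_2)]
def z49 (X : ℕ) : ℕ := Nat.lor (en 0 0 M49_0 X) (Nat.lor (en 0 1 M49_1 X) (Nat.lor (en 1 0 M49_2 X) 0))
def r49 (f X : ℕ) : Bool := st (fun g => st (fun Y => cw N49 S49 V49 z49 X Y) (gb10 g)) (tb gf49 10 1024 f)
def M50_0 : ℕ := 0xffffffffffffff0000000000000000000000000000ffffffffffffffffffffffffffffffffffffffffffffffffffffffffffffffffffffffffffffffffffffffffffffffffff00000000000000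
def M50_1 : ℕ := 0xffffffffffffff0000000000000000000000000000000000000000000000000000000000000000000000000000000000000000000000000000000000000000
def M50_2 : ℕ := 0xffffffffffffff000000000000000000000000000000000000000000000000000000000000000000000000000000000000000000000000000000000000000000000000000000
def N50 : ℕ := 0xffffffffffffffffffffffffffffffffffffffffffffffffffffffffffffffffffffffffffffffffffff00000000000000ffffffffffffffffffffffffffffffffffffffffff00000000000000
def S50 : ℕ := 0xffffffffffffff00000000000000000000000000000000000000000000000000000000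
def V50 : ℕ := 0xaf000000000000000000000000000000000000000000000000000000000
def l50 : List (ℕ × ℕ × ℕ) := [(0, 0, M50_0), (0, 1, M50_1), (1, 0, M50_2)]
def z50 (X : ℕ) : ℕ := Nat.lor (en 0 0 M50_0 X) (Nat.lor (en 0 1 M50_1 X) (Nat.lor (en 1 0 M50_2 X) 0))
def r50 (f X : ℕ) : Bool := st (fun g => st (fun Y => cw N50 S50 V50 z50 X Y) (gb10 g)) (tb gf50 10 1024 f)
def M51_0 : ℕ := 0xffffffffffffff000000000000000000000000000000000000000000000000000000000000000000000000000000000000ffffffffffffffffffffffffffffffffffffffffff00000000000000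
def M51_1 : ℕ := 0xffffffffffffff00000000000000000000000000000000000000000000000000000000
def M51_2 : ℕ := 0xffffffffffffffffffffffffffff000000000000000000000000000000000000000000000000000000000000000000000000000000000000
def M51_3 : ℕ := 0xffffffffffffff0000000000000000000000000000000000000000000000000000000000000000000000
def M51_4 : ℕ := 0xffffffffffffffffffffffffffff0000000000000000000000000000000000000000000000000000000000000000000000000000000000000000000000000000000000000000
def N51 : ℕ := 0xffffffffffffffffffffffffffffffffffffffffffffffffffffffffffffffffffffffffffffffffffffffffffffffffff00000000000000000000000000000000000000000000000000000000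
def S51 : ℕ := 0xffffffffffffffffffffffffffffffffffffffffff00000000000000
def V51 : ℕ := 0xaf000000000000af000000000000af000000000000000
def l51 : List (ℕ × ℕ × ℕ) := [(0, 0, M51_0), (0, 1, M51_1), (0, 2, M51_2), (1, 0, M51_3), (2, 0, M51_4)]
def z51 (X : ℕ) : ℕ := Nat.lor (en 0 0 M51_0 X) (Nat.lor (en 0 1 M51_1 X) (Nat.lor (en 0 2 M51_2 X) (Nat.lor (en 1 0 M51_3 X) (Nat.lor (en 2 0 M51_4 X) 0))))
def r51 (f X : ℕ) : Bool := st (fun g => st (fun Y => cw N51 S51 V51 z51 X Y) (gb10 g)) (tb gf51 10 1024 f)
def M52_0 : ℕ := 0xffffffffffffff00000000000000ffffffffffffffffffffffffffffffffffffffffffffffffffffffff00000000000000ffffffffffffffffffffffffffffffffffffffffff00000000000000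
def M52_1 : ℕ := 0xffffffffffffff00000000000000000000000000000000000000000000000000000000
def M52_2 : ℕ := 0xffffffffffffff000000000000000000000000000000000000000000000000000000000000000000000000000000000000000000000000000000000000000000000000000000
def N52 : ℕ := 0xffffffffffffffffffffffffffff00000000000000ffffffffffffffffffffffffffffffffffffffffffffffffffffffffffffffffffffffffffffffffffffffffffffffffff00000000000000
def S52 : ℕ := 0xffffffffffffff0000000000000000000000000000000000000000000000000000000000000000000000000000000000000000000000000000000000000000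
def V52 : ℕ := 0xaf00000000000000000000000000000000000000000000000000000000000000000000000000000000000000000000000000000000000000000
def l52 : List (ℕ × ℕ × ℕ) := [(0, 0, M52_0), (0, 5, M52_1), (5, 0, M52_2)]
def z52 (X : ℕ) : ℕ := Nat.lor (en 0 0 M52_0 X) (Nat.lor (en 0 5 M52_1 X) (Nat.lor (en 5 0 M52_2 X) 0))
def r52 (f X : ℕ) : Bool := st (fun g => st (fun Y => cw N52 S52 V52 z52 X Y) (gb10 g)) (tb gf52 10 1024 f)

/-- check of the records of type 10 -/
def b10 (f : ℕ) : Bool := st (fun X => bc (Nat.beq (Nat.land X H10) 0)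
  (bc (r47 f X) (bc (r48 f X) (bc (r49 f X) (bc (r50 f X) (bc (r51 f X) (bc (r52 f X) true false) false) false) false) false) false) false) (gb10 f)

end

theorem bck10 : al 1024 b10 = true := by decide +kernel

theorem hb10 : al 10 (fun k => Nat.beq (dg H10 (Nat.sub 10 k)) 36028797018963968) = true := by
  decide +kernel

theorem hH10 : ∀ m, 1 ≤ m → m ≤ 10 → dg H10 m = 36028797018963968 := by
  intro m h1 h2
  have h3 := (al_iff _ _).1 hb10 (10 - m) (by omega)
  rw [beq_iff] at h3
  have e : Nat.sub 10 (10 - m) = m := by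
    show 10 - (10 - m) = m
    omega
  rw [e] at h3
  exact h3

theorem bs10 (f : ℕ) (hf : f < 1024) : b10 f = true := (al_iff _ _).1 bck10 f hf

theorem hX10 (f : ℕ) (hf : f < 1024) : Nat.land (gb10 f) H10 = 0 := by
  have h := bs10 f hf
  unfold b10 at h
  rw [st_eq, bc_iff] at h
  exact beq_iff.1 h.1

theorem sp47 : spc 47 10 2800 l47 N47 S47 V47 = true := by decide +kernel

theorem c47 (f : ℕ) (hf : f < 1024) :
    cw N47 S47 V47 z47 (gb10 f) (gb10 (tb gf47 10 1024 f)) = true := by
  have h := bs10 f hf
  unfold b10 at h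
  rw [st_eq] at h
  have h0 := ((bc_iff _ _).1 h).2
  have g := ((bc_iff _ _).1 h0).1
  unfold r47 at g
  rw [st_eq, st_eq] at g
  exact g

theorem sp48 : spc 48 10 2800 l48 N48 S48 V48 = true := by decide +kernel

theorem c48 (f : ℕ) (hf : f < 1024) :
    cw N48 S48 V48 z48 (gb10 f) (gb10 (tb gf48 10 1024 f)) = true := by
  have h := bs10 f hf
  unfold b10 at h
  rw [st_eq] at h
  have h0 := ((bc_iff _ _).1 h).2
  have h1 := ((bc_iff _ _).1 h0).2
  have g := ((bc_iff _ _).1 h1).1
  unfold r48 at g
  rw [st_eq, st_eq] at g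
  exact g

theorem sp49 : spc 49 10 2800 l49 N49 S49 V49 = true := by decide +kernel

theorem c49 (f : ℕ) (hf : f < 1024) :
    cw N49 S49 V49 z49 (gb10 f) (gb10 (tb gf49 10 1024 f)) = true := by
  have h := bs10 f hf
  unfold b10 at h
  rw [st_eq] at h
  have h0 := ((bc_iff _ _).1 h).2
  have h1 := ((bc_iff _ _).1 h0).2
  have h2 := ((bc_iff _ _).1 h1).2
  have g := ((bc_iff _ _).1 h2).1
  unfold r49 at g
  rw [st_eq, st_eq] at g
  exact g

theorem sp50 : spc 50 10 2800 l50 N50 S50 V50 = true := by decide +kernel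

theorem c50 (f : ℕ) (hf : f < 1024) :
    cw N50 S50 V50 z50 (gb10 f) (gb10 (tb gf50 10 1024 f)) = true := by
  have h := bs10 f hf
  unfold b10 at h
  rw [st_eq] at h
  have h0 := ((bc_iff _ _).1 h).2
  have h1 := ((bc_iff _ _).1 h0).2
  have h2 := ((bc_iff _ _).1 h1).2
  have h3 := ((bc_iff _ _).1 h2).2
  have g := ((bc_iff _ _).1 h3).1
  unfold r50 at g
  rw [st_eq, st_eq] at g
  exact g

theorem sp51 : spc 51 10 2800 l51 N51 S51 V51 = true := by decide +kernel

theorem c51 (f : ℕ) (hf : f < 1024) :
    cw N51 S51 V51 z51 (gb10 f) (gb10 (tb gf51 10 1024 f)) = true := by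
  have h := bs10 f hf
  unfold b10 at h
  rw [st_eq] at h
  have h0 := ((bc_iff _ _).1 h).2
  have h1 := ((bc_iff _ _).1 h0).2
  have h2 := ((bc_iff _ _).1 h1).2
  have h3 := ((bc_iff _ _).1 h2).2
  have h4 := ((bc_iff _ _).1 h3).2
  have g := ((bc_iff _ _).1 h4).1
  unfold r51 at g
  rw [st_eq, st_eq] at g
  exact g

theorem sp52 : spc 52 10 2800 l52 N52 S52 V52 = true := by decide +kernel

theorem c52 (f : ℕ) (hf : f < 1024) :
    cw N52 S52 V52 z52 (gb10 f) (gb10 (tb gf52 10 1024 f)) = true := by
  have h := bs10 f hf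
  unfold b10 at h
  rw [st_eq] at h
  have h0 := ((bc_iff _ _).1 h).2
  have h1 := ((bc_iff _ _).1 h0).2
  have h2 := ((bc_iff _ _).1 h1).2
  have h3 := ((bc_iff _ _).1 h2).2
  have h4 := ((bc_iff _ _).1 h3).2
  have h5 := ((bc_iff _ _).1 h4).2
  have g := ((bc_iff _ _).1 h5).1
  unfold r52 at g
  rw [st_eq, st_eq] at g
  exact g

theorem gRt10 (f : ℕ) (hf : f < 1024) : gR (1024 * 10 + f) = gr10 f := by
  generalize hq : 1024 * 10 + f = q
  have hs : Nat.sub q 10240 = f := by
    show q - 10240 = f
    omega
  have b1024 : Nat.ble 1024 q = true := ble_t (by omega)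
  have b2048 : Nat.ble 2048 q = true := ble_t (by omega)
  have b3072 : Nat.ble 3072 q = true := ble_t (by omega)
  have b4096 : Nat.ble 4096 q = true := ble_t (by omega)
  have b5120 : Nat.ble 5120 q = true := ble_t (by omega)
  have b6144 : Nat.ble 6144 q = true := ble_t (by omega)
  have b7168 : Nat.ble 7168 q = true := ble_t (by omega)
  have b8192 : Nat.ble 8192 q = true := ble_t (by omega)
  have b9216 : Nat.ble 9216 q = true := ble_t (by omega)
  have b10240 : Nat.ble 10240 q = true := ble_t (by omega)
  have b11264 : Nat.ble 11264 q = false := ble_f (by omega)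
  have b12288 : Nat.ble 12288 q = false := ble_f (by omega)
  have b13312 : Nat.ble 13312 q = false := ble_f (by omega)
  have b14336 : Nat.ble 14336 q = false := ble_f (by omega)
  have e : gR q = gr10 (Nat.sub q 10240) := by
    simp only [gR, gt0, gt1, gt2, gt3, gt4, b1024, b2048, b3072, b4096, b5120, b6144, b7168, b8192, b9216, b10240, b11264, b12288, b13312, b14336, brf, brt]
  rw [e, hs]

theorem gal10 (f : ℕ) : ga10 f < 2 ^ 9072 := Nat.and_lt_two_pow _ (by decide +kernel)

theorem elt10 (f k : ℕ) (hf : f < 1024) (hk : k < 10) : el 10 f k = dg (gb10 f) (10 - k) := by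
  have h : el 10 f k =
    Nat.mod (Nat.shiftRight (gR (1024 * 10 + f)) (56 * (172 - k))) 72057594037927936 := rfl
  rw [h, gRt10 f hf]
  exact el_of 9072 (a := ga10 f) (b := gb10 f) rfl (by norm_num) (gal10 f) (by norm_num) hk

theorem good47 : Good 10 47 := by
  have hd : dm 10 = 10 := by decide +kernel
  have ho : 2 * ofs 10 = 2800 := by decide +kernel
  have hg : gfT.getD 47 0 = gf47 := by decide +kernel
  have hl : ∀ f < 1024, tb gf47 10 1024 f < 1024 := fun f _ => Nat.mod_lt _ (by norm_num)
  have key := snd (w := 47) (gb := gb10) (h := fun f => tb gf47 10 1024 f) (z := z47) sp47 hH10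
    (fun X => rfl) hX10 hl c47
  unfold Good hh
  rw [hd, ho, hg]
  intro f hf k hk
  obtain ⟨k1, k2, k3⟩ := key f hf k hk
  rw [elt10 _ _ (hl f hf) hk, elt10 _ _ hf k1]
  exact ⟨k1, k2, k3⟩

theorem good48 : Good 10 48 := by
  have hd : dm 10 = 10 := by decide +kernel
  have ho : 2 * ofs 10 = 2800 := by decide +kernel
  have hg : gfT.getD 48 0 = gf48 := by decide +kernel
  have hl : ∀ f < 1024, tb gf48 10 1024 f < 1024 := fun f _ => Nat.mod_lt _ (by norm_num)
  have key := snd (w := 48) (gb := gb10) (h := fun f => tb gf48 10 1024 f) (z := z48) sp48 hH10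
    (fun X => rfl) hX10 hl c48
  unfold Good hh
  rw [hd, ho, hg]
  intro f hf k hk
  obtain ⟨k1, k2, k3⟩ := key f hf k hk
  rw [elt10 _ _ (hl f hf) hk, elt10 _ _ hf k1]
  exact ⟨k1, k2, k3⟩

theorem good49 : Good 10 49 := by
  have hd : dm 10 = 10 := by decide +kernel
  have ho : 2 * ofs 10 = 2800 := by decide +kernel
  have hg : gfT.getD 49 0 = gf49 := by decide +kernel
  have hl : ∀ f < 1024, tb gf49 10 1024 f < 1024 := fun f _ => Nat.mod_lt _ (by norm_num)
  have key := snd (w := 49) (gb := gb10) (h := fun f => tb gf49 10 1024 f) (z := z49) sp49 hH10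
    (fun X => rfl) hX10 hl c49
  unfold Good hh
  rw [hd, ho, hg]
  intro f hf k hk
  obtain ⟨k1, k2, k3⟩ := key f hf k hk
  rw [elt10 _ _ (hl f hf) hk, elt10 _ _ hf k1]
  exact ⟨k1, k2, k3⟩

theorem good50 : Good 10 50 := by
  have hd : dm 10 = 10 := by decide +kernel
  have ho : 2 * ofs 10 = 2800 := by decide +kernel
  have hg : gfT.getD 50 0 = gf50 := by decide +kernel
  have hl : ∀ f < 1024, tb gf50 10 1024 f < 1024 := fun f _ => Nat.mod_lt _ (by norm_num)
  have key := snd (w := 50) (gb := gb10) (h := fun f => tb gf50 10 1024 f) (z := z50) sp50 hH10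
    (fun X => rfl) hX10 hl c50
  unfold Good hh
  rw [hd, ho, hg]
  intro f hf k hk
  obtain ⟨k1, k2, k3⟩ := key f hf k hk
  rw [elt10 _ _ (hl f hf) hk, elt10 _ _ hf k1]
  exact ⟨k1, k2, k3⟩

theorem good51 : Good 10 51 := by
  have hd : dm 10 = 10 := by decide +kernel
  have ho : 2 * ofs 10 = 2800 := by decide +kernel
  have hg : gfT.getD 51 0 = gf51 := by decide +kernel
  have hl : ∀ f < 1024, tb gf51 10 1024 f < 1024 := fun f _ => Nat.mod_lt _ (by norm_num)
  have key := snd (w := 51) (gb := gb10) (h := fun f => tb gf51 10 1024 f) (z := z51) sp51 hH10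
    (fun X => rfl) hX10 hl c51
  unfold Good hh
  rw [hd, ho, hg]
  intro f hf k hk
  obtain ⟨k1, k2, k3⟩ := key f hf k hk
  rw [elt10 _ _ (hl f hf) hk, elt10 _ _ hf k1]
  exact ⟨k1, k2, k3⟩

theorem good52 : Good 10 52 := by
  have hd : dm 10 = 10 := by decide +kernel
  have ho : 2 * ofs 10 = 2800 := by decide +kernel
  have hg : gfT.getD 52 0 = gf52 := by decide +kernel
  have hl : ∀ f < 1024, tb gf52 10 1024 f < 1024 := fun f _ => Nat.mod_lt _ (by norm_num)
  have key := snd (w := 52) (gb := gb10) (h := fun f => tb gf52 10 1024 f) (z := z52) sp52 hH10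
    (fun X => rfl) hX10 hl c52
  unfold Good hh
  rw [hd, ho, hg]
  intro f hf k hk
  obtain ⟨k1, k2, k3⟩ := key f hf k hk
  rw [elt10 _ _ (hl f hf) hk, elt10 _ _ hf k1]
  exact ⟨k1, k2, k3⟩

end Pool.Agent.Y809.Q440
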