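import Pool.Agent.Y809.Q440.Dig

/-! Comparison of the records of type 12. -/

set_option autoImplicit false
set_option maxRecDepth 100000

namespace Pool.Agent.Y809.Q440

open Pool.Agent.Y440 Pool.Agent.Y440.K
open Pool.Agent.Y440.B (al bc st tb st_eq)

noncomputable section

def H12 : ℕ := 0x800000000000008000000000000080000000000000800000000000008000000000000080000000000000800000000000008000000000000000000000000000
def M58_0 : ℕ := 0xffffffffffffffffffffffffffffffffffffffffffffffffffffffffffffffffffffffffffffffffffffffffffffffffffffffffffffffff00000000000000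
def N58 : ℕ := 0xffffffffffffffffffffffffffffffffffffffffffffffffffffffffffffffffffffffffffffffffffffffffffffffffffffffffffffffff00000000000000
def S58 : ℕ := 0
def V58 : ℕ := 0
def l58 : List (ℕ × ℕ × ℕ) := [(0, 0, M58_0)]
def z58 (X : ℕ) : ℕ := Nat.lor (en 0 0 M58_0 X) 0
def r58 (f X : ℕ) : Bool := st (fun g => st (fun Y => cw N58 S58 V58 z58 X Y) (gb12 g)) (tb gf58 10 1024 f)
def M59_0 : ℕ := 0xffffffffffffffffffffffffffffffffffffffffffffffffffffffffffffffffffffffffffffffffffffffffffffffffffffffffffffffff00000000000000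
def N59 : ℕ := 0xffffffffffffffffffffffffffffffffffffffffffffffffffffffffffffffffffffffffffffffffffffffffffffffffffffffffffffffff00000000000000
def S59 : ℕ := 0
def V59 : ℕ := 0
def l59 : List (ℕ × ℕ × ℕ) := [(0, 0, M59_0)]
def z59 (X : ℕ) : ℕ := Nat.lor (en 0 0 M59_0 X) 0
def r59 (f X : ℕ) : Bool := st (fun g => st (fun Y => cw N59 S59 V59 z59 X Y) (gb12 g)) (tb gf59 10 1024 f)
def M60_0 : ℕ := 0xffffffffffffffffffffffffffffffffffffffffffffffffffffffffffffffffffffffffffffffffffffffffffffffffffffffffffffffff00000000000000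
def N60 : ℕ := 0xffffffffffffffffffffffffffffffffffffffffffffffffffffffffffffffffffffff00000000000000000000000000000000000000000000000000000000
def S60 : ℕ := 0xffffffffffffffffffffffffffffffffffffffffff00000000000000
def V60 : ℕ := 0x3e8000000000003e8000000000003e800000000000000
def l60 : List (ℕ × ℕ × ℕ) := [(0, 0, M60_0)]
def z60 (X : ℕ) : ℕ := Nat.lor (en 0 0 M60_0 X) 0
def r60 (f X : ℕ) : Bool := st (fun g => st (fun Y => cw N60 S60 V60 z60 X Y) (gb12 g)) (tb gf60 10 1024 f)
def M61_0 : ℕ := 0xffffffffffffffffffffffffffffffffffffffffffffffffffffffffffffffffffffffffffffffffffffffffffffffffffffffffffffffff00000000000000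
def N61 : ℕ := 0xffffffffffffffffffffffffffffffffffffffffffffffffffffffffffffffffffffffffffffffffffffffffffffffffffffffffffffffff00000000000000
def S61 : ℕ := 0
def V61 : ℕ := 0
def l61 : List (ℕ × ℕ × ℕ) := [(0, 0, M61_0)]
def z61 (X : ℕ) : ℕ := Nat.lor (en 0 0 M61_0 X) 0
def r61 (f X : ℕ) : Bool := st (fun g => st (fun Y => cw N61 S61 V61 z61 X Y) (gb12 g)) (tb gf61 10 1024 f)
def M62_0 : ℕ := 0xffffffffffffffffffffffffffffffffffffffffffffffffffffffffffffffffffffffffffffffffffffffffffffffffffffffffffffffff00000000000000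
def N62 : ℕ := 0xffffffffffffffffffffffffffffffffffffffffffffffffffffffff00000000000000ffffffffffffffffffffffffffffffffffffffffff00000000000000
def S62 : ℕ := 0xffffffffffffff00000000000000000000000000000000000000000000000000000000
def V62 : ℕ := 0x3e800000000000000000000000000000000000000000000000000000000
def l62 : List (ℕ × ℕ × ℕ) := [(0, 0, M62_0)]
def z62 (X : ℕ) : ℕ := Nat.lor (en 0 0 M62_0 X) 0
def r62 (f X : ℕ) : Bool := st (fun g => st (fun Y => cw N62 S62 V62 z62 X Y) (gb12 g)) (tb gf62 10 1024 f)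

/-- check of the records of type 12 -/
def b12 (f : ℕ) : Bool := st (fun X => bc (Nat.beq (Nat.land X H12) 0)
  (bc (r58 f X) (bc (r59 f X) (bc (r60 f X) (bc (r61 f X) (bc (r62 f X) true false) false) false) false) false) false) (gb12 f)

end

theorem bck12 : al 1024 b12 = true := by decide +kernel

theorem hb12 : al 8 (fun k => Nat.beq (dg H12 (Nat.sub 8 k)) 36028797018963968) = true := by
  decide +kernel

theorem hH12 : ∀ m, 1 ≤ m → m ≤ 8 → dg H12 m = 36028797018963968 := by
  intro m h1 h2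
  have h3 := (al_iff _ _).1 hb12 (8 - m) (by omega)
  rw [beq_iff] at h3
  have e : Nat.sub 8 (8 - m) = m := by
    show 8 - (8 - m) = m
    omega
  rw [e] at h3
  exact h3

theorem bs12 (f : ℕ) (hf : f < 1024) : b12 f = true := (al_iff _ _).1 bck12 f hf

theorem hX12 (f : ℕ) (hf : f < 1024) : Nat.land (gb12 f) H12 = 0 := by
  have h := bs12 f hf
  unfold b12 at h
  rw [st_eq, bc_iff] at h
  exact beq_iff.1 h.1

theorem sp58 : spc 58 8 1000 l58 N58 S58 V58 = true := by decide +kernel

theorem c58 (f : ℕ) (hf : f < 1024) :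
    cw N58 S58 V58 z58 (gb12 f) (gb12 (tb gf58 10 1024 f)) = true := by
  have h := bs12 f hf
  unfold b12 at h
  rw [st_eq] at h
  have h0 := ((bc_iff _ _).1 h).2
  have g := ((bc_iff _ _).1 h0).1
  unfold r58 at g
  rw [st_eq, st_eq] at g
  exact g

theorem sp59 : spc 59 8 1000 l59 N59 S59 V59 = true := by decide +kernel

theorem c59 (f : ℕ) (hf : f < 1024) :
    cw N59 S59 V59 z59 (gb12 f) (gb12 (tb gf59 10 1024 f)) = true := by
  have h := bs12 f hf
  unfold b12 at h
  rw [st_eq] at h
  have h0 := ((bc_iff _ _).1 h).2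
  have h1 := ((bc_iff _ _).1 h0).2
  have g := ((bc_iff _ _).1 h1).1
  unfold r59 at g
  rw [st_eq, st_eq] at g
  exact g

theorem sp60 : spc 60 8 1000 l60 N60 S60 V60 = true := by decide +kernel

theorem c60 (f : ℕ) (hf : f < 1024) :
    cw N60 S60 V60 z60 (gb12 f) (gb12 (tb gf60 10 1024 f)) = true := by
  have h := bs12 f hf
  unfold b12 at h
  rw [st_eq] at h
  have h0 := ((bc_iff _ _).1 h).2
  have h1 := ((bc_iff _ _).1 h0).2
  have h2 := ((bc_iff _ _).1 h1).2
  have g := ((bc_iff _ _).1 h2).1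
  unfold r60 at g
  rw [st_eq, st_eq] at g
  exact g

theorem sp61 : spc 61 8 1000 l61 N61 S61 V61 = true := by decide +kernel

theorem c61 (f : ℕ) (hf : f < 1024) :
    cw N61 S61 V61 z61 (gb12 f) (gb12 (tb gf61 10 1024 f)) = true := by
  have h := bs12 f hf
  unfold b12 at h
  rw [st_eq] at h
  have h0 := ((bc_iff _ _).1 h).2
  have h1 := ((bc_iff _ _).1 h0).2
  have h2 := ((bc_iff _ _).1 h1).2
  have h3 := ((bc_iff _ _).1 h2).2
  have g := ((bc_iff _ _).1 h3).1
  unfold r61 at g
  rw [st_eq, st_eq] at g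
  exact g

theorem sp62 : spc 62 8 1000 l62 N62 S62 V62 = true := by decide +kernel

theorem c62 (f : ℕ) (hf : f < 1024) :
    cw N62 S62 V62 z62 (gb12 f) (gb12 (tb gf62 10 1024 f)) = true := by
  have h := bs12 f hf
  unfold b12 at h
  rw [st_eq] at h
  have h0 := ((bc_iff _ _).1 h).2
  have h1 := ((bc_iff _ _).1 h0).2
  have h2 := ((bc_iff _ _).1 h1).2
  have h3 := ((bc_iff _ _).1 h2).2
  have h4 := ((bc_iff _ _).1 h3).2
  have g := ((bc_iff _ _).1 h4).1
  unfold r62 at g
  rw [st_eq, st_eq] at g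
  exact g

theorem gRt12 (f : ℕ) (hf : f < 1024) : gR (1024 * 12 + f) = gr12 f := by
  generalize hq : 1024 * 12 + f = q
  have hs : Nat.sub q 12288 = f := by
    show q - 12288 = f
    omega
  have b1024 : Nat.ble 1024 q = true := ble_t (by omega)
  have b2048 : Nat.ble 2048 q = true := ble_t (by omega)
  have b3072 : Nat.ble 3072 q = true := ble_t (by omega)
  have b4096 : Nat.ble 4096 q = true := ble_t (by omega)
  have b5120 : Nat.ble 5120 q = true := ble_t (by omega)
  have b6144 : Nat.ble 6144 q = true := ble_t (by omega)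
  have b7168 : Nat.ble 7168 q = true := ble_t (by omega)
  have b8192 : Nat.ble 8192 q = true := ble_t (by omega)
  have b9216 : Nat.ble 9216 q = true := ble_t (by omega)
  have b10240 : Nat.ble 10240 q = true := ble_t (by omega)
  have b11264 : Nat.ble 11264 q = true := ble_t (by omega)
  have b12288 : Nat.ble 12288 q = true := ble_t (by omega)
  have b13312 : Nat.ble 13312 q = false := ble_f (by omega)
  have b14336 : Nat.ble 14336 q = false := ble_f (by omega)
  have e : gR q = gr12 (Nat.sub q 12288) := by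
    simp only [gR, gt0, gt1, gt2, gt3, gt4, b1024, b2048, b3072, b4096, b5120, b6144, b7168, b8192, b9216, b10240, b11264, b12288, b13312, b14336, brf, brt]
  rw [e, hs]

theorem gal12 (f : ℕ) : ga12 f < 2 ^ 9184 := Nat.and_lt_two_pow _ (by decide +kernel)

theorem elt12 (f k : ℕ) (hf : f < 1024) (hk : k < 8) : el 12 f k = dg (gb12 f) (8 - k) := by
  have h : el 12 f k =
    Nat.mod (Nat.shiftRight (gR (1024 * 12 + f)) (56 * (172 - k))) 72057594037927936 := rfl
  rw [h, gRt12 f hf]
  exact el_of 9184 (a := ga12 f) (b := gb12 f) rfl (by norm_num) (gal12 f) (by norm_num) hk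

theorem good58 : Good 12 58 := by
  have hd : dm 12 = 8 := by decide +kernel
  have ho : 2 * ofs 12 = 1000 := by decide +kernel
  have hg : gfT.getD 58 0 = gf58 := by decide +kernel
  have hl : ∀ f < 1024, tb gf58 10 1024 f < 1024 := fun f _ => Nat.mod_lt _ (by norm_num)
  have key := snd (w := 58) (gb := gb12) (h := fun f => tb gf58 10 1024 f) (z := z58) sp58 hH12
    (fun X => rfl) hX12 hl c58
  unfold Good hh
  rw [hd, ho, hg]
  intro f hf k hk
  obtain ⟨k1, k2, k3⟩ := key f hf k hk
  rw [elt12 _ _ (hl f hf) hk, elt12 _ _ hf k1]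
  exact ⟨k1, k2, k3⟩

theorem good59 : Good 12 59 := by
  have hd : dm 12 = 8 := by decide +kernel
  have ho : 2 * ofs 12 = 1000 := by decide +kernel
  have hg : gfT.getD 59 0 = gf59 := by decide +kernel
  have hl : ∀ f < 1024, tb gf59 10 1024 f < 1024 := fun f _ => Nat.mod_lt _ (by norm_num)
  have key := snd (w := 59) (gb := gb12) (h := fun f => tb gf59 10 1024 f) (z := z59) sp59 hH12
    (fun X => rfl) hX12 hl c59
  unfold Good hh
  rw [hd, ho, hg]
  intro f hf k hk
  obtain ⟨k1, k2, k3⟩ := key f hf k hk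
  rw [elt12 _ _ (hl f hf) hk, elt12 _ _ hf k1]
  exact ⟨k1, k2, k3⟩

theorem good60 : Good 12 60 := by
  have hd : dm 12 = 8 := by decide +kernel
  have ho : 2 * ofs 12 = 1000 := by decide +kernel
  have hg : gfT.getD 60 0 = gf60 := by decide +kernel
  have hl : ∀ f < 1024, tb gf60 10 1024 f < 1024 := fun f _ => Nat.mod_lt _ (by norm_num)
  have key := snd (w := 60) (gb := gb12) (h := fun f => tb gf60 10 1024 f) (z := z60) sp60 hH12
    (fun X => rfl) hX12 hl c60
  unfold Good hh
  rw [hd, ho, hg]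
  intro f hf k hk
  obtain ⟨k1, k2, k3⟩ := key f hf k hk
  rw [elt12 _ _ (hl f hf) hk, elt12 _ _ hf k1]
  exact ⟨k1, k2, k3⟩

theorem good61 : Good 12 61 := by
  have hd : dm 12 = 8 := by decide +kernel
  have ho : 2 * ofs 12 = 1000 := by decide +kernel
  have hg : gfT.getD 61 0 = gf61 := by decide +kernel
  have hl : ∀ f < 1024, tb gf61 10 1024 f < 1024 := fun f _ => Nat.mod_lt _ (by norm_num)
  have key := snd (w := 61) (gb := gb12) (h := fun f => tb gf61 10 1024 f) (z := z61) sp61 hH12
    (fun X => rfl) hX12 hl c61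
  unfold Good hh
  rw [hd, ho, hg]
  intro f hf k hk
  obtain ⟨k1, k2, k3⟩ := key f hf k hk
  rw [elt12 _ _ (hl f hf) hk, elt12 _ _ hf k1]
  exact ⟨k1, k2, k3⟩

theorem good62 : Good 12 62 := by
  have hd : dm 12 = 8 := by decide +kernel
  have ho : 2 * ofs 12 = 1000 := by decide +kernel
  have hg : gfT.getD 62 0 = gf62 := by decide +kernel
  have hl : ∀ f < 1024, tb gf62 10 1024 f < 1024 := fun f _ => Nat.mod_lt _ (by norm_num)
  have key := snd (w := 62) (gb := gb12) (h := fun f => tb gf62 10 1024 f) (z := z62) sp62 hH12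
    (fun X => rfl) hX12 hl c62
  unfold Good hh
  rw [hd, ho, hg]
  intro f hf k hk
  obtain ⟨k1, k2, k3⟩ := key f hf k hk
  rw [elt12 _ _ (hl f hf) hk, elt12 _ _ hf k1]
  exact ⟨k1, k2, k3⟩

end Pool.Agent.Y809.Q440
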