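import Pool.Agent.Y809.Q440.Dig

/-! Comparison of the records of type 13. -/

set_option autoImplicit false
set_option maxRecDepth 100000

namespace Pool.Agent.Y809.Q440

open Pool.Agent.Y440 Pool.Agent.Y440.K
open Pool.Agent.Y440.B (al bc st tb st_eq)

noncomputable section

def H13 : ℕ := 0x800000000000008000000000000080000000000000800000000000008000000000000080000000000000800000000000008000000000000080000000000000800000000000008000000000000000000000000000
def M63_0 : ℕ := 0xffffffffffffffffffffffffffffffffffffffffffffffffffffffffffffffffffffff00000000000000000000000000000000000000000000000000000000000000000000000000000000000000000000000000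
def M63_1 : ℕ := 0xffffffffffffff000000000000000000000000000000000000000000
def M63_2 : ℕ := 0xffffffffffffff0000000000000000000000000000
def M63_3 : ℕ := 0xffffffffffffff00000000000000
def M63_4 : ℕ := 0xffffffffffffff00000000000000000000000000000000000000000000000000000000
def M63_5 : ℕ := 0xffffffffffffff0000000000000000000000000000000000000000000000000000000000000000000000
def M63_6 : ℕ := 0xffffffffffffff000000000000000000000000000000000000000000000000000000000000000000000000000000000000
def N63 : ℕ := 0xffffffffffffffffffffffffffffffffffffffffffffffffffffffffffffffffffffffffffffffffffffffffffffffffffffffffffffffffffffffffffffffffffffffffffffffffffffffffff00000000000000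
def S63 : ℕ := 0
def V63 : ℕ := 0
def l63 : List (ℕ × ℕ × ℕ) := [(0, 0, M63_0), (0, 1, M63_1), (0, 3, M63_2), (0, 5, M63_3), (1, 0, M63_4), (3, 0, M63_5), (5, 0, M63_6)]
def z63 (X : ℕ) : ℕ := Nat.lor (en 0 0 M63_0 X) (Nat.lor (en 0 1 M63_1 X) (Nat.lor (en 0 3 M63_2 X) (Nat.lor (en 0 5 M63_3 X) (Nat.lor (en 1 0 M63_4 X) (Nat.lor (en 3 0 M63_5 X) (Nat.lor (en 5 0 M63_6 X) 0))))))
def r63 (f X : ℕ) : Bool := st (fun g => st (fun Y => cw N63 S63 V63 z63 X Y) (gb13 g)) (tb gf63 10 1024 f)
def M64_0 : ℕ := 0xffffffffffffffffffffffffffff000000000000000000000000000000000000000000000000000000000000000000000000000000000000ffffffffffffffffffffffffffffffffffffffffff00000000000000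
def M64_1 : ℕ := 0xffffffffffffffffffffffffffffffffffffffffff00000000000000000000000000000000000000000000000000000000
def M64_2 : ℕ := 0xffffffffffffffffffffffffffffffffffffffffff00000000000000000000000000000000000000000000000000000000000000000000000000000000000000000000000000
def N64 : ℕ := 0xffffffffffffffffffffffffffffffffffffffffffffffffffffffffffffffffffffffffffffffffffffffffffffffffffffffffffffffffffffffffffffffffffffffffffffffffffffffffff00000000000000
def S64 : ℕ := 0
def V64 : ℕ := 0
def l64 : List (ℕ × ℕ × ℕ) := [(0, 0, M64_0), (0, 3, M64_1), (3, 0, M64_2)]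
def z64 (X : ℕ) : ℕ := Nat.lor (en 0 0 M64_0 X) (Nat.lor (en 0 3 M64_1 X) (Nat.lor (en 3 0 M64_2 X) 0))
def r64 (f X : ℕ) : Bool := st (fun g => st (fun Y => cw N64 S64 V64 z64 X Y) (gb13 g)) (tb gf64 10 1024 f)
def M65_0 : ℕ := 0xffffffffffffff0000000000000000000000000000ffffffffffffffffffffffffffffffffffffffffff00000000000000000000000000000000000000000000000000000000ffffffffffffff00000000000000
def M65_1 : ℕ := 0xffffffffffffff000000000000000000000000000000000000000000000000000000000000000000000000000000000000000000000000000000000000000000000000000000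
def M65_2 : ℕ := 0xffffffffffffffffffffffffffff0000000000000000000000000000
def M65_3 : ℕ := 0xffffffffffffff00000000000000000000000000000000000000000000000000000000000000000000000000000000000000000000000000000000000000000000000000000000000000000000
def M65_4 : ℕ := 0xffffffffffffffffffffffffffff00000000000000000000000000000000000000000000000000000000
def N65 : ℕ := 0xffffffffffffffffffffffffffffffffffffffffffffffffffffffffffffffffffffffffffffffffffffffffffffffffffffffffffffffffffffffffffffffffffffffffffffffffffffffffff00000000000000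
def S65 : ℕ := 0
def V65 : ℕ := 0
def l65 : List (ℕ × ℕ × ℕ) := [(0, 0, M65_0), (0, 1, M65_1), (0, 2, M65_2), (1, 0, M65_3), (2, 0, M65_4)]
def z65 (X : ℕ) : ℕ := Nat.lor (en 0 0 M65_0 X) (Nat.lor (en 0 1 M65_1 X) (Nat.lor (en 0 2 M65_2 X) (Nat.lor (en 1 0 M65_3 X) (Nat.lor (en 2 0 M65_4 X) 0))))
def r65 (f X : ℕ) : Bool := st (fun g => st (fun Y => cw N65 S65 V65 z65 X Y) (gb13 g)) (tb gf65 10 1024 f)
def M66_0 : ℕ := 0xffffffffffffffffffffffffffff0000000000000000000000000000ffffffffffffff0000000000000000000000000000ffffffffffffffffffffffffffff000000000000000000000000000000000000000000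
def M66_1 : ℕ := 0xffffffffffffff0000000000000000000000000000ffffffffffffff000000000000000000000000000000000000000000ffffffffffffff00000000000000
def M66_2 : ℕ := 0xffffffffffffff0000000000000000000000000000ffffffffffffff000000000000000000000000000000000000000000ffffffffffffff0000000000000000000000000000
def N66 : ℕ := 0xffffffffffffffffffffffffffffffffffffffffffffffffffffffffffffffffffffffffffffffffffffffffffffffffffffffffffffffffffffffffffffffffffffffffffffffffffffffffff00000000000000
def S66 : ℕ := 0
def V66 : ℕ := 0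
def l66 : List (ℕ × ℕ × ℕ) := [(0, 0, M66_0), (0, 1, M66_1), (1, 0, M66_2)]
def z66 (X : ℕ) : ℕ := Nat.lor (en 0 0 M66_0 X) (Nat.lor (en 0 1 M66_1 X) (Nat.lor (en 1 0 M66_2 X) 0))
def r66 (f X : ℕ) : Bool := st (fun g => st (fun Y => cw N66 S66 V66 z66 X Y) (gb13 g)) (tb gf66 10 1024 f)
def M67_0 : ℕ := 0xffffffffffffffffffffffffffffffffffffffffff0000000000000000000000000000ffffffffffffff00000000000000000000000000000000000000000000000000000000ffffffffffffff00000000000000
def M67_1 : ℕ := 0xffffffffffffff0000000000000000000000000000ffffffffffffff00000000000000ffffffffffffff0000000000000000000000000000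
def M67_2 : ℕ := 0xffffffffffffff0000000000000000000000000000ffffffffffffff00000000000000ffffffffffffff000000000000000000000000000000000000000000
def N67 : ℕ := 0xffffffffffffffffffffffffffffffffffffffffffffffffffffffffffffffffffffffffffffffffffffffffffffffffffffffffffffffffffffffffffffffffffffffffffffffffffffffffff00000000000000
def S67 : ℕ := 0
def V67 : ℕ := 0
def l67 : List (ℕ × ℕ × ℕ) := [(0, 0, M67_0), (0, 1, M67_1), (1, 0, M67_2)]
def z67 (X : ℕ) : ℕ := Nat.lor (en 0 0 M67_0 X) (Nat.lor (en 0 1 M67_1 X) (Nat.lor (en 1 0 M67_2 X) 0))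
def r67 (f X : ℕ) : Bool := st (fun g => st (fun Y => cw N67 S67 V67 z67 X Y) (gb13 g)) (tb gf67 10 1024 f)

/-- check of the records of type 13 -/
def b13 (f : ℕ) : Bool := st (fun X => bc (Nat.beq (Nat.land X H13) 0)
  (bc (r63 f X) (bc (r64 f X) (bc (r65 f X) (bc (r66 f X) (bc (r67 f X) true false) false) false) false) false) false) (gb13 f)

end

theorem bck13 : al 1024 b13 = true := by decide +kernel

theorem hb13 : al 11 (fun k => Nat.beq (dg H13 (Nat.sub 11 k)) 36028797018963968) = true := by
  decide +kernel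

theorem hH13 : ∀ m, 1 ≤ m → m ≤ 11 → dg H13 m = 36028797018963968 := by
  intro m h1 h2
  have h3 := (al_iff _ _).1 hb13 (11 - m) (by omega)
  rw [beq_iff] at h3
  have e : Nat.sub 11 (11 - m) = m := by
    show 11 - (11 - m) = m
    omega
  rw [e] at h3
  exact h3

theorem bs13 (f : ℕ) (hf : f < 1024) : b13 f = true := (al_iff _ _).1 bck13 f hf

theorem hX13 (f : ℕ) (hf : f < 1024) : Nat.land (gb13 f) H13 = 0 := by
  have h := bs13 f hf
  unfold b13 at h
  rw [st_eq, bc_iff] at h
  exact beq_iff.1 h.1

theorem sp63 : spc 63 11 1000 l63 N63 S63 V63 = true := by decide +kernel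

theorem c63 (f : ℕ) (hf : f < 1024) :
    cw N63 S63 V63 z63 (gb13 f) (gb13 (tb gf63 10 1024 f)) = true := by
  have h := bs13 f hf
  unfold b13 at h
  rw [st_eq] at h
  have h0 := ((bc_iff _ _).1 h).2
  have g := ((bc_iff _ _).1 h0).1
  unfold r63 at g
  rw [st_eq, st_eq] at g
  exact g

theorem sp64 : spc 64 11 1000 l64 N64 S64 V64 = true := by decide +kernel

theorem c64 (f : ℕ) (hf : f < 1024) :
    cw N64 S64 V64 z64 (gb13 f) (gb13 (tb gf64 10 1024 f)) = true := by
  have h := bs13 f hf
  unfold b13 at h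
  rw [st_eq] at h
  have h0 := ((bc_iff _ _).1 h).2
  have h1 := ((bc_iff _ _).1 h0).2
  have g := ((bc_iff _ _).1 h1).1
  unfold r64 at g
  rw [st_eq, st_eq] at g
  exact g

theorem sp65 : spc 65 11 1000 l65 N65 S65 V65 = true := by decide +kernel

theorem c65 (f : ℕ) (hf : f < 1024) :
    cw N65 S65 V65 z65 (gb13 f) (gb13 (tb gf65 10 1024 f)) = true := by
  have h := bs13 f hf
  unfold b13 at h
  rw [st_eq] at h
  have h0 := ((bc_iff _ _).1 h).2
  have h1 := ((bc_iff _ _).1 h0).2
  have h2 := ((bc_iff _ _).1 h1).2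
  have g := ((bc_iff _ _).1 h2).1
  unfold r65 at g
  rw [st_eq, st_eq] at g
  exact g

theorem sp66 : spc 66 11 1000 l66 N66 S66 V66 = true := by decide +kernel

theorem c66 (f : ℕ) (hf : f < 1024) :
    cw N66 S66 V66 z66 (gb13 f) (gb13 (tb gf66 10 1024 f)) = true := by
  have h := bs13 f hf
  unfold b13 at h
  rw [st_eq] at h
  have h0 := ((bc_iff _ _).1 h).2
  have h1 := ((bc_iff _ _).1 h0).2
  have h2 := ((bc_iff _ _).1 h1).2
  have h3 := ((bc_iff _ _).1 h2).2
  have g := ((bc_iff _ _).1 h3).1
  unfold r66 at g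
  rw [st_eq, st_eq] at g
  exact g

theorem sp67 : spc 67 11 1000 l67 N67 S67 V67 = true := by decide +kernel

theorem c67 (f : ℕ) (hf : f < 1024) :
    cw N67 S67 V67 z67 (gb13 f) (gb13 (tb gf67 10 1024 f)) = true := by
  have h := bs13 f hf
  unfold b13 at h
  rw [st_eq] at h
  have h0 := ((bc_iff _ _).1 h).2
  have h1 := ((bc_iff _ _).1 h0).2
  have h2 := ((bc_iff _ _).1 h1).2
  have h3 := ((bc_iff _ _).1 h2).2
  have h4 := ((bc_iff _ _).1 h3).2
  have g := ((bc_iff _ _).1 h4).1
  unfold r67 at g
  rw [st_eq, st_eq] at g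
  exact g

theorem gRt13 (f : ℕ) (hf : f < 1024) : gR (1024 * 13 + f) = gr13 f := by
  generalize hq : 1024 * 13 + f = q
  have hs : Nat.sub q 13312 = f := by
    show q - 13312 = f
    omega
  have b1024 : Nat.ble 1024 q = true := ble_t (by omega)
  have b2048 : Nat.ble 2048 q = true := ble_t (by omega)
  have b3072 : Nat.ble 3072 q = true := ble_t (by omega)
  have b4096 : Nat.ble 4096 q = true := ble_t (by omega)
  have b5120 : Nat.ble 5120 q = true := ble_t (by omega)
  have b6144 : Nat.ble 6144 q = true := ble_t (by omega)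
  have b7168 : Nat.ble 7168 q = true := ble_t (by omega)
  have b8192 : Nat.ble 8192 q = true := ble_t (by omega)
  have b9216 : Nat.ble 9216 q = true := ble_t (by omega)
  have b10240 : Nat.ble 10240 q = true := ble_t (by omega)
  have b11264 : Nat.ble 11264 q = true := ble_t (by omega)
  have b12288 : Nat.ble 12288 q = true := ble_t (by omega)
  have b13312 : Nat.ble 13312 q = true := ble_t (by omega)
  have b14336 : Nat.ble 14336 q = false := ble_f (by omega)
  have e : gR q = gr13 (Nat.sub q 13312) := by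
    simp only [gR, gt0, gt1, gt2, gt3, gt4, b1024, b2048, b3072, b4096, b5120, b6144, b7168, b8192, b9216, b10240, b11264, b12288, b13312, b14336, brf, brt]
  rw [e, hs]

theorem gal13 (f : ℕ) : ga13 f < 2 ^ 9016 := Nat.and_lt_two_pow _ (by decide +kernel)

theorem elt13 (f k : ℕ) (hf : f < 1024) (hk : k < 11) : el 13 f k = dg (gb13 f) (11 - k) := by
  have h : el 13 f k =
    Nat.mod (Nat.shiftRight (gR (1024 * 13 + f)) (56 * (172 - k))) 72057594037927936 := rfl
  rw [h, gRt13 f hf]
  exact el_of 9016 (a := ga13 f) (b := gb13 f) rfl (by norm_num) (gal13 f) (by norm_num) hk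

theorem good63 : Good 13 63 := by
  have hd : dm 13 = 11 := by decide +kernel
  have ho : 2 * ofs 13 = 1000 := by decide +kernel
  have hg : gfT.getD 63 0 = gf63 := by decide +kernel
  have hl : ∀ f < 1024, tb gf63 10 1024 f < 1024 := fun f _ => Nat.mod_lt _ (by norm_num)
  have key := snd (w := 63) (gb := gb13) (h := fun f => tb gf63 10 1024 f) (z := z63) sp63 hH13
    (fun X => rfl) hX13 hl c63
  unfold Good hh
  rw [hd, ho, hg]
  intro f hf k hk
  obtain ⟨k1, k2, k3⟩ := key f hf k hk
  rw [elt13 _ _ (hl f hf) hk, elt13 _ _ hf k1]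
  exact ⟨k1, k2, k3⟩

theorem good64 : Good 13 64 := by
  have hd : dm 13 = 11 := by decide +kernel
  have ho : 2 * ofs 13 = 1000 := by decide +kernel
  have hg : gfT.getD 64 0 = gf64 := by decide +kernel
  have hl : ∀ f < 1024, tb gf64 10 1024 f < 1024 := fun f _ => Nat.mod_lt _ (by norm_num)
  have key := snd (w := 64) (gb := gb13) (h := fun f => tb gf64 10 1024 f) (z := z64) sp64 hH13
    (fun X => rfl) hX13 hl c64
  unfold Good hh
  rw [hd, ho, hg]
  intro f hf k hk
  obtain ⟨k1, k2, k3⟩ := key f hf k hk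
  rw [elt13 _ _ (hl f hf) hk, elt13 _ _ hf k1]
  exact ⟨k1, k2, k3⟩

theorem good65 : Good 13 65 := by
  have hd : dm 13 = 11 := by decide +kernel
  have ho : 2 * ofs 13 = 1000 := by decide +kernel
  have hg : gfT.getD 65 0 = gf65 := by decide +kernel
  have hl : ∀ f < 1024, tb gf65 10 1024 f < 1024 := fun f _ => Nat.mod_lt _ (by norm_num)
  have key := snd (w := 65) (gb := gb13) (h := fun f => tb gf65 10 1024 f) (z := z65) sp65 hH13
    (fun X => rfl) hX13 hl c65
  unfold Good hh
  rw [hd, ho, hg]
  intro f hf k hk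
  obtain ⟨k1, k2, k3⟩ := key f hf k hk
  rw [elt13 _ _ (hl f hf) hk, elt13 _ _ hf k1]
  exact ⟨k1, k2, k3⟩

theorem good66 : Good 13 66 := by
  have hd : dm 13 = 11 := by decide +kernel
  have ho : 2 * ofs 13 = 1000 := by decide +kernel
  have hg : gfT.getD 66 0 = gf66 := by decide +kernel
  have hl : ∀ f < 1024, tb gf66 10 1024 f < 1024 := fun f _ => Nat.mod_lt _ (by norm_num)
  have key := snd (w := 66) (gb := gb13) (h := fun f => tb gf66 10 1024 f) (z := z66) sp66 hH13
    (fun X => rfl) hX13 hl c66
  unfold Good hh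
  rw [hd, ho, hg]
  intro f hf k hk
  obtain ⟨k1, k2, k3⟩ := key f hf k hk
  rw [elt13 _ _ (hl f hf) hk, elt13 _ _ hf k1]
  exact ⟨k1, k2, k3⟩

theorem good67 : Good 13 67 := by
  have hd : dm 13 = 11 := by decide +kernel
  have ho : 2 * ofs 13 = 1000 := by decide +kernel
  have hg : gfT.getD 67 0 = gf67 := by decide +kernel
  have hl : ∀ f < 1024, tb gf67 10 1024 f < 1024 := fun f _ => Nat.mod_lt _ (by norm_num)
  have key := snd (w := 67) (gb := gb13) (h := fun f => tb gf67 10 1024 f) (z := z67) sp67 hH13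
    (fun X => rfl) hX13 hl c67
  unfold Good hh
  rw [hd, ho, hg]
  intro f hf k hk
  obtain ⟨k1, k2, k3⟩ := key f hf k hk
  rw [elt13 _ _ (hl f hf) hk, elt13 _ _ hf k1]
  exact ⟨k1, k2, k3⟩

end Pool.Agent.Y809.Q440
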