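import Pool.Agent.Y809.Q440.Dig

/-! Comparison of the records of type 6. -/

set_option autoImplicit false
set_option maxRecDepth 100000

namespace Pool.Agent.Y809.Q440

open Pool.Agent.Y440 Pool.Agent.Y440.K
open Pool.Agent.Y440.B (al bc st tb st_eq)

noncomputable section

def H6 : ℕ := 0x80000000000000800000000000008000000000000080000000000000800000000000008000000000000080000000000000800000000000008000000000000080000000000000800000000000008000000000000080000000000000800000000000008000000000000080000000000000800000000000008000000000000080000000000000800000000000008000000000000080000000000000800000000000008000000000000000000000000000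
def M32_0 : ℕ := 0xffffffffffffffffffffffffffffffffffffffffffffffffffffffffffffffffffffffffffffffffffffffffffffffffffffffffffffffffffffffffffffffffffffffffffffffffffffffffffffffffffffffffffffffffffffffffffffffffffffffffffffffffffffffffffffffffffffffffffffffffffffffffffffffffffffffffffffffffffffffffffffffffffffffffffffffffffffffffffffffffffffffffffffffff00000000000000
def N32 : ℕ := 0xffffffffffffffffffffffffffffffffffffffffffffffffffffffffffffffffffffffffffffffffffffffffffffffffffffffffffffffffffffffffffffffffffffffffffffffffffffffffffffffffffffffffffffffffffffffffffffffffffffffffffffffffffffffffffffffffffffffffffffffffffffffffffffffffffffffffffffffffffffffffffffffffffffffffffffffffffffffffffffffffffffffffffffffff00000000000000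
def S32 : ℕ := 0
def V32 : ℕ := 0
def l32 : List (ℕ × ℕ × ℕ) := [(0, 0, M32_0)]
def z32 (X : ℕ) : ℕ := Nat.lor (en 0 0 M32_0 X) 0
def r32 (f X : ℕ) : Bool := st (fun g => st (fun Y => cw N32 S32 V32 z32 X Y) (gb6 g)) (tb gf32 10 1024 f)
def M33_0 : ℕ := 0xffffffffffffffffffffffffffffffffffffffffffffffffffffffffffffffffffffffffffffffffffffffffffffffffffffffffffffffffffffffffffffffffffffffffffffffffffffffffffffffffffffffffffffffffffffffffffffffffffffffffffffffffffffffffffffffffffffffffffffffffffffffffffffffffffffffffffffffffffffffffffffffffffffffffffffffffffffffffffffffffffffffffffffffff00000000000000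
def N33 : ℕ := 0xffffffffffffffffffffffffffffffffffffffffffffffffffffffffffffffffffffffffffffffffffffffffffffffffffffffffffffffffffffffffffffffffffffffffffffffffffffffffffffffffffffffffffffffffffffffffffffffffffffffffffffffffffffffffffffffff000000000000000000000000000000000000000000000000000000000000000000000000000000000000000000000000000000000000000000000000000000
def S33 : ℕ := 0xffffffffffffffffffffffffffffffffffffffffffffffffffffffffffffffffffffffffffffffffffffffffffffffffffffffffffffffff00000000000000
def V33 : ℕ := 0x3e8000000000003e8000000000003e8000000000003e8000000000003e8000000000003e8000000000003e8000000000003e800000000000000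
def l33 : List (ℕ × ℕ × ℕ) := [(0, 0, M33_0)]
def z33 (X : ℕ) : ℕ := Nat.lor (en 0 0 M33_0 X) 0
def r33 (f X : ℕ) : Bool := st (fun g => st (fun Y => cw N33 S33 V33 z33 X Y) (gb6 g)) (tb gf33 10 1024 f)
def M34_0 : ℕ := 0xffffffffffffffffffffffffffffffffffffffffffffffffffffffffffffffffffffffffffffffffffffffffffffffffffffffffffffffffffffffffffffffffffffffffffffffffffffffffffffffffffffffffffffffffffffffffffffffffffffffffffffffffffffffffffffffffffffffffffffffffffffffffffffffffffffffffffffffffffffffffffffffffffffffffffffffffffffffffffffffffffffffffffffffff00000000000000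
def N34 : ℕ := 0xffffffffffffffffffffffffffffffffffffffffffffffffffffffffffffffffffffffffffffffffffffffffffffffffffffffffffffffff0000000000000000000000000000000000000000000000000000000000000000000000000000000000000000000000000000000000000000ffffffffffffffffffffffffffffffffffffffffffffffffffffffffffffffffffffff00000000000000000000000000000000000000000000000000000000
def S34 : ℕ := 0xffffffffffffffffffffffffffffffffffffffffffffffffffffffffffffffffffffffffffffffffffffffffffffffffffffffffffffffff0000000000000000000000000000000000000000000000000000000000000000000000ffffffffffffffffffffffffffffffffffffffffff00000000000000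
def V34 : ℕ := 0x3e8000000000003e8000000000003e8000000000003e8000000000003e8000000000003e8000000000003e8000000000003e80000000000000000000000000000000000000000000000000000000000000000000000000000000003e8000000000003e8000000000003e800000000000000
def l34 : List (ℕ × ℕ × ℕ) := [(0, 0, M34_0)]
def z34 (X : ℕ) : ℕ := Nat.lor (en 0 0 M34_0 X) 0
def r34 (f X : ℕ) : Bool := st (fun g => st (fun Y => cw N34 S34 V34 z34 X Y) (gb6 g)) (tb gf34 10 1024 f)

/-- check of the records of type 6 -/
def b6 (f : ℕ) : Bool := st (fun X => bc (Nat.beq (Nat.land X H6) 0)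
  (bc (r32 f X) (bc (r33 f X) (bc (r34 f X) true false) false) false) false) (gb6 f)

end

theorem bck6 : al 1024 b6 = true := by decide +kernel

theorem hb6 : al 24 (fun k => Nat.beq (dg H6 (Nat.sub 24 k)) 36028797018963968) = true := by
  decide +kernel

theorem hH6 : ∀ m, 1 ≤ m → m ≤ 24 → dg H6 m = 36028797018963968 := by
  intro m h1 h2
  have h3 := (al_iff _ _).1 hb6 (24 - m) (by omega)
  rw [beq_iff] at h3
  have e : Nat.sub 24 (24 - m) = m := by
    show 24 - (24 - m) = m
    omega
  rw [e] at h3
  exact h3

theorem bs6 (f : ℕ) (hf : f < 1024) : b6 f = true := (al_iff _ _).1 bck6 f hf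

theorem hX6 (f : ℕ) (hf : f < 1024) : Nat.land (gb6 f) H6 = 0 := by
  have h := bs6 f hf
  unfold b6 at h
  rw [st_eq, bc_iff] at h
  exact beq_iff.1 h.1

theorem sp32 : spc 32 24 1000 l32 N32 S32 V32 = true := by decide +kernel

theorem c32 (f : ℕ) (hf : f < 1024) :
    cw N32 S32 V32 z32 (gb6 f) (gb6 (tb gf32 10 1024 f)) = true := by
  have h := bs6 f hf
  unfold b6 at h
  rw [st_eq] at h
  have h0 := ((bc_iff _ _).1 h).2
  have g := ((bc_iff _ _).1 h0).1
  unfold r32 at g
  rw [st_eq, st_eq] at g
  exact g

theorem sp33 : spc 33 24 1000 l33 N33 S33 V33 = true := by decide +kernel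

theorem c33 (f : ℕ) (hf : f < 1024) :
    cw N33 S33 V33 z33 (gb6 f) (gb6 (tb gf33 10 1024 f)) = true := by
  have h := bs6 f hf
  unfold b6 at h
  rw [st_eq] at h
  have h0 := ((bc_iff _ _).1 h).2
  have h1 := ((bc_iff _ _).1 h0).2
  have g := ((bc_iff _ _).1 h1).1
  unfold r33 at g
  rw [st_eq, st_eq] at g
  exact g

theorem sp34 : spc 34 24 1000 l34 N34 S34 V34 = true := by decide +kernel

theorem c34 (f : ℕ) (hf : f < 1024) :
    cw N34 S34 V34 z34 (gb6 f) (gb6 (tb gf34 10 1024 f)) = true := by
  have h := bs6 f hf
  unfold b6 at h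
  rw [st_eq] at h
  have h0 := ((bc_iff _ _).1 h).2
  have h1 := ((bc_iff _ _).1 h0).2
  have h2 := ((bc_iff _ _).1 h1).2
  have g := ((bc_iff _ _).1 h2).1
  unfold r34 at g
  rw [st_eq, st_eq] at g
  exact g

theorem gRt6 (f : ℕ) (hf : f < 1024) : gR (1024 * 6 + f) = gr6 f := by
  generalize hq : 1024 * 6 + f = q
  have hs : Nat.sub q 6144 = f := by
    show q - 6144 = f
    omega
  have b1024 : Nat.ble 1024 q = true := ble_t (by omega)
  have b2048 : Nat.ble 2048 q = true := ble_t (by omega)
  have b3072 : Nat.ble 3072 q = true := ble_t (by omega)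
  have b4096 : Nat.ble 4096 q = true := ble_t (by omega)
  have b5120 : Nat.ble 5120 q = true := ble_t (by omega)
  have b6144 : Nat.ble 6144 q = true := ble_t (by omega)
  have b7168 : Nat.ble 7168 q = false := ble_f (by omega)
  have b8192 : Nat.ble 8192 q = false := ble_f (by omega)
  have b9216 : Nat.ble 9216 q = false := ble_f (by omega)
  have b10240 : Nat.ble 10240 q = false := ble_f (by omega)
  have b11264 : Nat.ble 11264 q = false := ble_f (by omega)
  have b12288 : Nat.ble 12288 q = false := ble_f (by omega)
  have b13312 : Nat.ble 13312 q = false := ble_f (by omega)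
  have b14336 : Nat.ble 14336 q = false := ble_f (by omega)
  have e : gR q = gr6 (Nat.sub q 6144) := by
    simp only [gR, gt0, gt1, gt2, gt3, gt4, b1024, b2048, b3072, b4096, b5120, b6144, b7168, b8192, b9216, b10240, b11264, b12288, b13312, b14336, brf, brt]
  rw [e, hs]

theorem gal6 (f : ℕ) : ga6 f < 2 ^ 8288 := Nat.and_lt_two_pow _ (by decide +kernel)

theorem elt6 (f k : ℕ) (hf : f < 1024) (hk : k < 24) : el 6 f k = dg (gb6 f) (24 - k) := by
  have h : el 6 f k =
    Nat.mod (Nat.shiftRight (gR (1024 * 6 + f)) (56 * (172 - k))) 72057594037927936 := rfl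
  rw [h, gRt6 f hf]
  exact el_of 8288 (a := ga6 f) (b := gb6 f) rfl (by norm_num) (gal6 f) (by norm_num) hk

theorem good32 : Good 6 32 := by
  have hd : dm 6 = 24 := by decide +kernel
  have ho : 2 * ofs 6 = 1000 := by decide +kernel
  have hg : gfT.getD 32 0 = gf32 := by decide +kernel
  have hl : ∀ f < 1024, tb gf32 10 1024 f < 1024 := fun f _ => Nat.mod_lt _ (by norm_num)
  have key := snd (w := 32) (gb := gb6) (h := fun f => tb gf32 10 1024 f) (z := z32) sp32 hH6
    (fun X => rfl) hX6 hl c32
  unfold Good hh
  rw [hd, ho, hg]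
  intro f hf k hk
  obtain ⟨k1, k2, k3⟩ := key f hf k hk
  rw [elt6 _ _ (hl f hf) hk, elt6 _ _ hf k1]
  exact ⟨k1, k2, k3⟩

theorem good33 : Good 6 33 := by
  have hd : dm 6 = 24 := by decide +kernel
  have ho : 2 * ofs 6 = 1000 := by decide +kernel
  have hg : gfT.getD 33 0 = gf33 := by decide +kernel
  have hl : ∀ f < 1024, tb gf33 10 1024 f < 1024 := fun f _ => Nat.mod_lt _ (by norm_num)
  have key := snd (w := 33) (gb := gb6) (h := fun f => tb gf33 10 1024 f) (z := z33) sp33 hH6
    (fun X => rfl) hX6 hl c33
  unfold Good hh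
  rw [hd, ho, hg]
  intro f hf k hk
  obtain ⟨k1, k2, k3⟩ := key f hf k hk
  rw [elt6 _ _ (hl f hf) hk, elt6 _ _ hf k1]
  exact ⟨k1, k2, k3⟩

theorem good34 : Good 6 34 := by
  have hd : dm 6 = 24 := by decide +kernel
  have ho : 2 * ofs 6 = 1000 := by decide +kernel
  have hg : gfT.getD 34 0 = gf34 := by decide +kernel
  have hl : ∀ f < 1024, tb gf34 10 1024 f < 1024 := fun f _ => Nat.mod_lt _ (by norm_num)
  have key := snd (w := 34) (gb := gb6) (h := fun f => tb gf34 10 1024 f) (z := z34) sp34 hH6
    (fun X => rfl) hX6 hl c34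
  unfold Good hh
  rw [hd, ho, hg]
  intro f hf k hk
  obtain ⟨k1, k2, k3⟩ := key f hf k hk
  rw [elt6 _ _ (hl f hf) hk, elt6 _ _ hf k1]
  exact ⟨k1, k2, k3⟩

end Pool.Agent.Y809.Q440
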