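import Pool.Agent.Y809.Q440.Dig

/-! Comparison of the records of type 8. -/

set_option autoImplicit false
set_option maxRecDepth 100000

namespace Pool.Agent.Y809.Q440

open Pool.Agent.Y440 Pool.Agent.Y440.K
open Pool.Agent.Y440.B (al bc st tb st_eq)

noncomputable section

def H8 : ℕ := 0x800000000000008000000000000080000000000000800000000000008000000000000080000000000000800000000000008000000000000080000000000000800000000000008000000000000080000000000000800000000000008000000000000080000000000000800000000000008000000000000080000000000000800000000000008000000000000080000000000000800000000000008000000000000000000000000000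
def M39_0 : ℕ := 0xffffffffffffffffffffffffffffffffffffffffffffffffffffffffffffffffffffffffffffffffffffffffffffffffffffffffffffffffffffffffffffffffffffffffffffffffffffffffffffffffffffffffffffffffffffffffffffffffffffffffffffffffffffffffffffffffffffffffffffffffffffffffffffffffffffffffffffffffffffffffffffffffffffffffffffffffffffffffffffffffff00000000000000
def N39 : ℕ := 0xffffffffffffffffffffffffffffffffffffffffffffffffffffffffffffffffffffffffffffffffffffffffffffffffffffffffffffffffffffffffffffffffffffffffffffffffffffffffffffffffffffffffffffffffffffffffffffffffffffffffffffffffffffffffffffffffffffffffffffffffffffffffffffffffffffffffffffffffffffffffffffffffffffffffffffffffffffffffffffffffff00000000000000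
def S39 : ℕ := 0
def V39 : ℕ := 0
def l39 : List (ℕ × ℕ × ℕ) := [(0, 0, M39_0)]
def z39 (X : ℕ) : ℕ := Nat.lor (en 0 0 M39_0 X) 0
def r39 (f X : ℕ) : Bool := st (fun g => st (fun Y => cw N39 S39 V39 z39 X Y) (gb8 g)) (tb gf39 10 1024 f)
def M40_0 : ℕ := 0xffffffffffffffffffffffffffffffffffffffffffffffffffffffffffffffffffffffffffffffffffffffffffffffffffffffffffffffffffffffffffffffffffffffffffffffffffffffffffffffffffffffffffffffffffffffffffffffffffffffffffffffffffffffffffffffffffffffffffffffffffffffffffffffffffffffffffffffffffffffffffffffffffffffffffffffffffffffffffffffffff00000000000000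
def N40 : ℕ := 0xffffffffffffffffffffffffffffffffffffffffffffffffffffffffffffffffffffffffffffffffffffffffffffffffffffffffffffffffffffffffffffff000000000000000000000000000000000000000000000000000000000000000000000000000000000000ffffffffffffffffffffffffffffffffffffffffffffffffffffffff000000000000000000000000000000000000000000ffffffffffffff00000000000000
def S40 : ℕ := 0xffffffffffffffffffffffffffffffffffffffffffffffffffffffffffffffffffffffffffffffffffff00000000000000000000000000000000000000000000000000000000ffffffffffffffffffffffffffffffffffffffffff0000000000000000000000000000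
def V40 : ℕ := 0x10a0000000000010a0000000000010a0000000000010a0000000000010a0000000000010a000000000000000000000000000000000000000000000000000000000000000000010a0000000000010a0000000000010a00000000000000000000000000000
def l40 : List (ℕ × ℕ × ℕ) := [(0, 0, M40_0)]
def z40 (X : ℕ) : ℕ := Nat.lor (en 0 0 M40_0 X) 0
def r40 (f X : ℕ) : Bool := st (fun g => st (fun Y => cw N40 S40 V40 z40 X Y) (gb8 g)) (tb gf40 10 1024 f)
def M41_0 : ℕ := 0xffffffffffffffffffffffffffffffffffffffffffffffffffffffffffffffffffffffffffffffffffffffffffffffffffffffffffffffffffffffffffffffffffffffffffffffffffffffffffffffffffffffffffffffffffffffffffffffffffffffffffffffffffffffffffffffffffffffffffffffffffffffffffffffffffffffffffffffffffffffffffffffffffffffffffffffffffffffffffffffffff00000000000000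
def N41 : ℕ := 0xffffffffffffffffffffffffffffffffffffffffffffffffffffffffffffffffffffffffffffffffffffffffffffffffffffffffffffffffffffffffffffffffffffffffffffffffffffffffffffffffffffffffffffffffffffffffffffffffffffffffffffffffff00000000000000000000000000000000000000000000000000000000000000000000000000000000000000000000000000ffffffffffffff00000000000000
def S41 : ℕ := 0xffffffffffffffffffffffffffffffffffffffffffffffffffffffffffffffffffffffffffffffffffffffffffffffffff0000000000000000000000000000
def V41 : ℕ := 0x10a0000000000010a0000000000010a0000000000010a0000000000010a0000000000010a0000000000010a00000000000000000000000000000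
def l41 : List (ℕ × ℕ × ℕ) := [(0, 0, M41_0)]
def z41 (X : ℕ) : ℕ := Nat.lor (en 0 0 M41_0 X) 0
def r41 (f X : ℕ) : Bool := st (fun g => st (fun Y => cw N41 S41 V41 z41 X Y) (gb8 g)) (tb gf41 10 1024 f)

/-- check of the records of type 8 -/
def b8 (f : ℕ) : Bool := st (fun X => bc (Nat.beq (Nat.land X H8) 0)
  (bc (r39 f X) (bc (r40 f X) (bc (r41 f X) true false) false) false) false) (gb8 f)

end

theorem bck8 : al 1024 b8 = true := by decide +kernel

theorem hb8 : al 23 (fun k => Nat.beq (dg H8 (Nat.sub 23 k)) 36028797018963968) = true := by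
  decide +kernel

theorem hH8 : ∀ m, 1 ≤ m → m ≤ 23 → dg H8 m = 36028797018963968 := by
  intro m h1 h2
  have h3 := (al_iff _ _).1 hb8 (23 - m) (by omega)
  rw [beq_iff] at h3
  have e : Nat.sub 23 (23 - m) = m := by
    show 23 - (23 - m) = m
    omega
  rw [e] at h3
  exact h3

theorem bs8 (f : ℕ) (hf : f < 1024) : b8 f = true := (al_iff _ _).1 bck8 f hf

theorem hX8 (f : ℕ) (hf : f < 1024) : Nat.land (gb8 f) H8 = 0 := by
  have h := bs8 f hf
  unfold b8 at h
  rw [st_eq, bc_iff] at h
  exact beq_iff.1 h.1

theorem sp39 : spc 39 23 4256 l39 N39 S39 V39 = true := by decide +kernel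

theorem c39 (f : ℕ) (hf : f < 1024) :
    cw N39 S39 V39 z39 (gb8 f) (gb8 (tb gf39 10 1024 f)) = true := by
  have h := bs8 f hf
  unfold b8 at h
  rw [st_eq] at h
  have h0 := ((bc_iff _ _).1 h).2
  have g := ((bc_iff _ _).1 h0).1
  unfold r39 at g
  rw [st_eq, st_eq] at g
  exact g

theorem sp40 : spc 40 23 4256 l40 N40 S40 V40 = true := by decide +kernel

theorem c40 (f : ℕ) (hf : f < 1024) :
    cw N40 S40 V40 z40 (gb8 f) (gb8 (tb gf40 10 1024 f)) = true := by
  have h := bs8 f hf
  unfold b8 at h
  rw [st_eq] at h
  have h0 := ((bc_iff _ _).1 h).2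
  have h1 := ((bc_iff _ _).1 h0).2
  have g := ((bc_iff _ _).1 h1).1
  unfold r40 at g
  rw [st_eq, st_eq] at g
  exact g

theorem sp41 : spc 41 23 4256 l41 N41 S41 V41 = true := by decide +kernel

theorem c41 (f : ℕ) (hf : f < 1024) :
    cw N41 S41 V41 z41 (gb8 f) (gb8 (tb gf41 10 1024 f)) = true := by
  have h := bs8 f hf
  unfold b8 at h
  rw [st_eq] at h
  have h0 := ((bc_iff _ _).1 h).2
  have h1 := ((bc_iff _ _).1 h0).2
  have h2 := ((bc_iff _ _).1 h1).2
  have g := ((bc_iff _ _).1 h2).1
  unfold r41 at g
  rw [st_eq, st_eq] at g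
  exact g

theorem gRt8 (f : ℕ) (hf : f < 1024) : gR (1024 * 8 + f) = gr8 f := by
  generalize hq : 1024 * 8 + f = q
  have hs : Nat.sub q 8192 = f := by
    show q - 8192 = f
    omega
  have b1024 : Nat.ble 1024 q = true := ble_t (by omega)
  have b2048 : Nat.ble 2048 q = true := ble_t (by omega)
  have b3072 : Nat.ble 3072 q = true := ble_t (by omega)
  have b4096 : Nat.ble 4096 q = true := ble_t (by omega)
  have b5120 : Nat.ble 5120 q = true := ble_t (by omega)
  have b6144 : Nat.ble 6144 q = true := ble_t (by omega)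
  have b7168 : Nat.ble 7168 q = true := ble_t (by omega)
  have b8192 : Nat.ble 8192 q = true := ble_t (by omega)
  have b9216 : Nat.ble 9216 q = false := ble_f (by omega)
  have b10240 : Nat.ble 10240 q = false := ble_f (by omega)
  have b11264 : Nat.ble 11264 q = false := ble_f (by omega)
  have b12288 : Nat.ble 12288 q = false := ble_f (by omega)
  have b13312 : Nat.ble 13312 q = false := ble_f (by omega)
  have b14336 : Nat.ble 14336 q = false := ble_f (by omega)
  have e : gR q = gr8 (Nat.sub q 8192) := by
    simp only [gR, gt0, gt1, gt2, gt3, gt4, b1024, b2048, b3072, b4096, b5120, b6144, b7168, b8192, b9216, b10240, b11264, b12288, b13312, b14336, brf, brt]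
  rw [e, hs]

theorem gal8 (f : ℕ) : ga8 f < 2 ^ 8344 := Nat.and_lt_two_pow _ (by decide +kernel)

theorem elt8 (f k : ℕ) (hf : f < 1024) (hk : k < 23) : el 8 f k = dg (gb8 f) (23 - k) := by
  have h : el 8 f k =
    Nat.mod (Nat.shiftRight (gR (1024 * 8 + f)) (56 * (172 - k))) 72057594037927936 := rfl
  rw [h, gRt8 f hf]
  exact el_of 8344 (a := ga8 f) (b := gb8 f) rfl (by norm_num) (gal8 f) (by norm_num) hk

theorem good39 : Good 8 39 := by
  have hd : dm 8 = 23 := by decide +kernel
  have ho : 2 * ofs 8 = 4256 := by decide +kernel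
  have hg : gfT.getD 39 0 = gf39 := by decide +kernel
  have hl : ∀ f < 1024, tb gf39 10 1024 f < 1024 := fun f _ => Nat.mod_lt _ (by norm_num)
  have key := snd (w := 39) (gb := gb8) (h := fun f => tb gf39 10 1024 f) (z := z39) sp39 hH8
    (fun X => rfl) hX8 hl c39
  unfold Good hh
  rw [hd, ho, hg]
  intro f hf k hk
  obtain ⟨k1, k2, k3⟩ := key f hf k hk
  rw [elt8 _ _ (hl f hf) hk, elt8 _ _ hf k1]
  exact ⟨k1, k2, k3⟩

theorem good40 : Good 8 40 := by
  have hd : dm 8 = 23 := by decide +kernel
  have ho : 2 * ofs 8 = 4256 := by decide +kernel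
  have hg : gfT.getD 40 0 = gf40 := by decide +kernel
  have hl : ∀ f < 1024, tb gf40 10 1024 f < 1024 := fun f _ => Nat.mod_lt _ (by norm_num)
  have key := snd (w := 40) (gb := gb8) (h := fun f => tb gf40 10 1024 f) (z := z40) sp40 hH8
    (fun X => rfl) hX8 hl c40
  unfold Good hh
  rw [hd, ho, hg]
  intro f hf k hk
  obtain ⟨k1, k2, k3⟩ := key f hf k hk
  rw [elt8 _ _ (hl f hf) hk, elt8 _ _ hf k1]
  exact ⟨k1, k2, k3⟩

theorem good41 : Good 8 41 := by
  have hd : dm 8 = 23 := by decide +kernel
  have ho : 2 * ofs 8 = 4256 := by decide +kernel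
  have hg : gfT.getD 41 0 = gf41 := by decide +kernel
  have hl : ∀ f < 1024, tb gf41 10 1024 f < 1024 := fun f _ => Nat.mod_lt _ (by norm_num)
  have key := snd (w := 41) (gb := gb8) (h := fun f => tb gf41 10 1024 f) (z := z41) sp41 hH8
    (fun X => rfl) hX8 hl c41
  unfold Good hh
  rw [hd, ho, hg]
  intro f hf k hk
  obtain ⟨k1, k2, k3⟩ := key f hf k hk
  rw [elt8 _ _ (hl f hf) hk, elt8 _ _ hf k1]
  exact ⟨k1, k2, k3⟩

end Pool.Agent.Y809.Q440
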