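import Pool.Agent.Y809.Q440.CkA
import Pool.Agent.Y809.Q440.R0
import Pool.Agent.Y809.Q440.R1
import Pool.Agent.Y809.Q440.R2
import Pool.Agent.Y809.Q440.R3
import Pool.Agent.Y809.Q440.R4
import Pool.Agent.Y809.Q440.R5
import Pool.Agent.Y809.Q440.R6
import Pool.Agent.Y809.Q440.R7
import Pool.Agent.Y809.Q440.R8
import Pool.Agent.Y809.Q440.R9
import Pool.Agent.Y809.Q440.R10
import Pool.Agent.Y809.Q440.R11
import Pool.Agent.Y809.Q440.R12
import Pool.Agent.Y809.Q440.R13

/-! Invariance of the kernel under the five transpositions. -/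

set_option autoImplicit false
set_option maxRecDepth 100000

open Finset

namespace Pool.Agent.Y809.Q440

open Pool.Agent.Y440 Pool.Agent.Y440.K
open Pool.Agent.Y440.B (al bc st tb st_eq)
open Pool.Agent.Y440.A (F0 F1 F2 F3 F4 C1 C2 C3 C4)

theorem allGood : ∀ w < 68, Good (gty.getD w 0) w := by
  intro w hw
  interval_cases w
  · exact good0
  · exact good1
  · exact good2
  · exact good3
  · exact good4
  · exact good5
  · exact good6
  · exact good7
  · exact good8
  · exact good9
  · exact good10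
  · exact good11
  · exact good12
  · exact good13
  · exact good14
  · exact good15
  · exact good16
  · exact good17
  · exact good18
  · exact good19
  · exact good20
  · exact good21
  · exact good22
  · exact good23
  · exact good24
  · exact good25
  · exact good26
  · exact good27
  · exact good28
  · exact good29
  · exact good30
  · exact good31
  · exact good32
  · exact good33
  · exact good34
  · exact good35
  · exact good36
  · exact good37
  · exact good38
  · exact good39
  · exact good40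
  · exact good41
  · exact good42
  · exact good43
  · exact good44
  · exact good45
  · exact good46
  · exact good47
  · exact good48
  · exact good49
  · exact good50
  · exact good51
  · exact good52
  · exact good53
  · exact good54
  · exact good55
  · exact good56
  · exact good57
  · exact good58
  · exact good59
  · exact good60
  · exact good61
  · exact good62
  · exact good63
  · exact good64
  · exact good65
  · exact good66
  · exact good67

theorem gty_lt : ∀ w < 68, gty.getD w 0 < 14 := by decide +kernel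

/-! ### permutations -/

/-- the set of the values of `p` below `n`, as a number -/
def bset (p : ℕ → ℕ) (n : ℕ) : ℕ :=
  @Nat.rec (fun _ => ℕ) 0 (fun k r => Nat.lor (Nat.shiftLeft 1 (p k)) r) n

theorem bset_spec (p : ℕ → ℕ) (i : ℕ) : ∀ n, (bset p n).testBit i = true ↔ ∃ k < n, p k = i
  | 0 => by
    have h : bset p 0 = 0 := rfl
    rw [h, Nat.zero_testBit]
    simp
  | n + 1 => by
    have h : bset p (n + 1) = (1 <<< p n) ||| bset p n := rfl
    rw [h, Nat.testBit_or, Bool.or_eq_true, bset_spec p i n, Nat.one_shiftLeft,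
      Nat.testBit_two_pow, decide_eq_true_iff]
    constructor
    · rintro (h1 | ⟨k, h1, h2⟩)
      · exact ⟨n, by omega, h1⟩
      · exact ⟨k, by omega, h2⟩
    · rintro ⟨k, h1, h2⟩
      rcases Nat.lt_succ_iff_lt_or_eq.1 h1 with h3 | h3
      · exact Or.inr ⟨k, h3, h2⟩
      · subst h3
        exact Or.inl h2

/-- check of the permutations and of the weights -/
noncomputable def pck (w : ℕ) : Bool := st (fun t => st (fun D =>
  bc (Nat.beq (bset (pp w) D) (Nat.sub (Nat.shiftLeft 1 D) 1))
    (al D (fun k => Nat.beq (dw t (pp w k)) (dw t k))) false) (dm t)) (gty.getD w 0)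

theorem hpck : al 68 pck = true := by decide +kernel

theorem surj_pp {w : ℕ} (hw : w < 68) : ∀ i < dm (gty.getD w 0),
    ∃ k < dm (gty.getD w 0), pp w k = i := by
  intro i hi
  have h := (al_iff _ _).1 hpck w hw
  unfold pck at h
  rw [st_eq, st_eq, bc_iff, beq_iff] at h
  rw [← bset_spec, h.1]
  have e : Nat.sub (Nat.shiftLeft 1 (dm (gty.getD w 0))) 1 = 2 ^ dm (gty.getD w 0) - 1 := by
    show 1 <<< dm (gty.getD w 0) - 1 = _
    rw [Nat.one_shiftLeft]
  rw [e, Nat.testBit_two_pow_sub_one, decide_eq_true_iff]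
  exact hi

theorem dw_pp {w : ℕ} (hw : w < 68) : ∀ k < dm (gty.getD w 0),
    dw (gty.getD w 0) (pp w k) = dw (gty.getD w 0) k := by
  intro k hk
  have h := (al_iff _ _).1 hpck w hw
  unfold pck at h
  rw [st_eq, st_eq, bc_iff, al_iff] at h
  exact beq_iff.1 (h.2 k hk)

theorem reindex {D : ℕ} {p : ℕ → ℕ} (hp : ∀ k < D, p k < D) (hs : ∀ i < D, ∃ k < D, p k = i)
    (F : ℕ → ℤ) : ∑ k ∈ range D, F (p k) = ∑ k ∈ range D, F k := by
  have hm : ∀ k ∈ range D, p k ∈ range D := fun k hk => mem_range.2 (hp k (mem_range.1 hk))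
  have hsurj : Set.SurjOn p (range D : Set ℕ) (range D : Set ℕ) := by
    intro i hi
    obtain ⟨k, h1, h2⟩ := hs i (by simpa using hi)
    exact ⟨k, by simpa using h1, h2⟩
  have hinj : Set.InjOn p (range D : Set ℕ) :=
    Finset.injOn_of_surjOn_of_card_le p (fun k hk => by
      have h := hm k (by simpa using hk)
      simpa using h) hsurj le_rfl
  exact Finset.sum_nbij p hm hinj hsurj (fun k _ => rfl)

/-! ### indices -/

theorem qx_aff {c : ℕ} (hc : c < 1024) : Aff (qx c) := by
  have h := (al_iff _ _).1 ckC c hc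
  rw [st_eq] at h
  have h1 := ckT_aff (by norm_num) h
  intro x hx y hy
  exact h1 x hx y hy

theorem hh_aff {w : ℕ} (hw : w < 68) : Aff (hh w) := by
  have h := (al_iff _ _).1 ckH w hw
  rw [st_eq] at h
  have h1 := ckT_aff (by norm_num) h
  intro x hx y hy
  exact h1 x hx y hy

theorem hh_lt (w f : ℕ) : hh w f < 1024 := Nat.mod_lt _ (by norm_num)

theorem ckP_cases {g Z z c c' : ℕ} (h : ckP g Z z c c' = true) :
    (qx c 0 = 14336 ∧ qx c' 0 = 14336) ∨
    ∃ w < 68, qx c 0 / 1024 = gty.getD w 0 ∧ qx c' 0 / 1024 = gty.getD w 0 ∧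
      ∀ j < 11, qx c' (z ^^^ tb Z 10 1024 j) % 1024 = hh w (qx c ((1 <<< j) >>> 1) % 1024) := by
  unfold ckP at h
  rw [st_eq, st_eq, st_eq] at h
  rcases bc_cases h with ⟨_, h1⟩ | ⟨_, h1⟩
  · left
    rw [bc_iff, beq_iff, beq_iff] at h1
    exact h1
  · right
    rw [bc_iff] at h1
    obtain ⟨h2, h3⟩ := h1
    rw [st_eq, bc_iff, bc_iff, st_eq, beq_iff, beq_iff] at h3
    obtain ⟨h4, h5, h6⟩ := h3
    refine ⟨tb g 7 128 c, Nat.lt_succ_of_le (Nat.le_of_ble_eq_true h2), h4, h5, fun j hj => ?_⟩
    unfold pts at h6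
    have h7 := beq_iff.1 ((al_iff _ _).1 h6 j hj)
    exact h7

theorem all_unused (hi : S_idx) {c : ℕ} (hc : c < 1024) (h0 : qx c 0 = 14336) :
    ∀ f < 1024, qx c f = 14336 := by
  rcases hi c hc with h | ⟨t, ht, h⟩
  · exact h
  · have := h 0 (by norm_num)
    omega

theorem all_type (hi : S_idx) {c t : ℕ} (hc : c < 1024) (ht : t < 14) (h0 : qx c 0 / 1024 = t) :
    ∀ f < 1024, qx c f = 1024 * t + qx c f % 1024 := by
  rcases hi c hc with h | ⟨t', ht', h⟩
  · have := h 0 (by norm_num)
    omega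
  · intro f hf
    have h1 := h 0 (by norm_num)
    have h2 := h f hf
    omega

theorem main (hv : S_val) (hi : S_idx) {g Z z c c' : ℕ} {Fa : ℕ → ℕ} (hc : c < 1024)
    (hc' : c' < 1024) (hF : ∀ x y, Fa (x ^^^ y) = Fa x ^^^ Fa y ^^^ Fa 0)
    (hFl : ∀ x, Fa x < 1024)
    (hZ : ∀ j < 11, Fa ((1 <<< j) >>> 1) = z ^^^ tb Z 10 1024 j)
    (h : ckP g Z z c c' = true) :
    ∀ f < 1024, ∀ f' < 1024, K0 c' (Fa f) (Fa f') = K0 c f f' := by
  rcases ckP_cases h with ⟨h1, h2⟩ | ⟨w, hw, h1, h2, h3⟩
  · intro f hf f' hf'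
    unfold K0
    rw [all_unused hi hc h1 f hf, all_unused hi hc h1 f' hf', all_unused hi hc' h2 _ (hFl f),
      all_unused hi hc' h2 _ (hFl f')]
  · have ht := gty_lt w hw
    have hgood := allGood w hw
    have hsu := surj_pp hw
    have hdw := dw_pp hw
    generalize gty.getD w 0 = t at *
    have hA : Aff (fun x => qx c' (Fa x) % 1024) :=
      (Aff.comp (qx_aff hc') (fun x _ y _ => hF x y) (fun x _ => hFl x)).mod
    have hB : Aff (fun x => hh w (qx c x % 1024)) :=
      Aff.comp (hh_aff hw) (qx_aff hc).mod (fun x _ => Nat.mod_lt _ (by norm_num))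
    have key := Aff.agree hA hB (by
      have h4 := h3 0 (by norm_num)
      rw [← hZ 0 (by norm_num)] at h4
      exact h4) (by
      intro j hj
      have h4 := h3 (j + 1) (by omega)
      rw [← hZ (j + 1) (by omega)] at h4
      have e : (1 <<< (j + 1)) >>> 1 = 2 ^ j := by
        rw [Nat.one_shiftLeft, Nat.shiftRight_eq_div_pow, pow_succ, pow_one,
          Nat.mul_div_cancel _ (by norm_num)]
      rw [e] at h4
      exact h4)
    have hq : ∀ f < 1024, qx c f = 1024 * t + qx c f % 1024 := all_type hi hc ht h1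
    have hq' : ∀ f < 1024, qx c' (Fa f) = 1024 * t + hh w (qx c f % 1024) := by
      intro f hf
      have h4 := all_type hi hc' ht h2 (Fa f) (hFl f)
      rw [key f hf] at h4
      exact h4
    intro f hf f' hf'
    unfold K0
    rw [hq' f hf, hq' f' hf', hq f hf, hq f' hf']
    have m1 : qx c f % 1024 < 1024 := Nat.mod_lt _ (by norm_num)
    have m2 : qx c f' % 1024 < 1024 := Nat.mod_lt _ (by norm_num)
    have e1 : (1024 * t + qx c f % 1024) % 1024 = qx c f % 1024 := by omega
    have e2 : (1024 * t + qx c f' % 1024) % 1024 = qx c f' % 1024 := by omega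
    rw [e1, e2]
    generalize qx c f % 1024 = a at *
    generalize qx c f' % 1024 = b at *
    rw [hv.1 t ht _ (hh_lt w a) _ (hh_lt w b), hv.1 t ht a m1 b m2]
    have hterm : ∀ x < 1024, ∀ k < dm t, ∃ s : ℤ, s * s = 1 ∧
        ∀ x < 1024, ((el t (hh w x) k : ℕ) : ℤ) - ofs t = s * ((el t x (pp w k) : ℤ) - ofs t) := by
      intro _ _ k hk
      by_cases hs : ss w k = 0
      · refine ⟨1, by norm_num, fun x hx => ?_⟩
        rw [(hgood x hx k hk).2.1 hs]
        ring
      · refine ⟨-1, by norm_num, fun x hx => ?_⟩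
        have h4 := (hgood x hx k hk).2.2 hs
        have h5 : ((el t (hh w x) k : ℕ) : ℤ) + (el t x (pp w k) : ℤ) = 2 * (ofs t : ℤ) := by
          exact_mod_cast h4
        linarith
    have hsum : ∑ k ∈ range (dm t), (dw t k : ℤ) * ((el t (hh w a) k : ℤ) - ofs t) *
          ((el t (hh w b) k : ℤ) - ofs t) =
        ∑ k ∈ range (dm t), (dw t k : ℤ) * ((el t a k : ℤ) - ofs t) *
          ((el t b k : ℤ) - ofs t) := by
      rw [← reindex (fun k hk => (hgood 0 (by norm_num) k hk).1) hsu
        (fun k => (dw t k : ℤ) * ((el t a k : ℤ) - ofs t) * ((el t b k : ℤ) - ofs t))]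
      refine Finset.sum_congr rfl fun k hk => ?_
      rw [mem_range] at hk
      obtain ⟨s, hs, h4⟩ := hterm 0 (by norm_num) k hk
      rw [h4 a m1, h4 b m2, hdw k hk]
      calc (dw t k : ℤ) * (s * ((el t a (pp w k) : ℤ) - ofs t)) *
            (s * ((el t b (pp w k) : ℤ) - ofs t)) =
          (s * s) * ((dw t k : ℤ) * ((el t a (pp w k) : ℤ) - ofs t) *
            ((el t b (pp w k) : ℤ) - ofs t)) := by ring
        _ = _ := by rw [hs, one_mul]
    rw [hsum]

theorem t (hv : S_val) (hi : S_idx) : S_inv := by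
  intro c hc f hf g hg
  refine ⟨?_, ?_, ?_, ?_, ?_⟩
  · have h := (al_iff _ _).1 ckQ0 c hc
    rw [st_eq, st_eq] at h
    refine main hv hi hc (C0_lt c) (F0_aff c) (F0_lt c) (fun j hj => ?_) h f hf g hg
    rw [F0_joint, Nat.xor_assoc, z0_spec j hj]
  · have h := (al_iff _ _).1 ckQ1 c hc
    rw [st_eq] at h
    refine main hv hi hc (C1_lt c) (F1_aff c) (F1_lt c) (fun j hj => ?_) h f hf g hg
    rw [Nat.zero_xor]
    exact z1_spec j hj
  · have h := (al_iff _ _).1 ckQ2 c hc
    rw [st_eq] at h
    refine main hv hi hc (C2_lt c) (F2_aff c) (F2_lt c) (fun j hj => ?_) h f hf g hg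
    rw [Nat.zero_xor]
    exact z2_spec j hj
  · have h := (al_iff _ _).1 ckQ3 c hc
    rw [st_eq] at h
    refine main hv hi hc (C3_lt c) (F3_aff c) (F3_lt c) (fun j hj => ?_) h f hf g hg
    rw [Nat.zero_xor]
    exact z3_spec j hj
  · have h := (al_iff _ _).1 ckQ4 c hc
    rw [st_eq] at h
    refine main hv hi hc (C4_lt c) (F4_aff c) (F4_lt c) (fun j hj => ?_) h f hf g hg
    rw [Nat.zero_xor]
    exact z4_spec j hj

end Pool.Agent.Y809.Q440
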