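import Pool.Agent.Y440.B.Word

/-! General lemmas for the invariance of the kernel: loops, affine functions over the field with two
elements, digits. -/

set_option autoImplicit false
set_option maxRecDepth 100000

namespace Pool.Agent.Y809.Q440

open Pool.Agent.Y440
open Pool.Agent.Y440.B (al bc st tb st_eq)
open Pool.Agent.Y440.A (b10 bt)

/-! ### loops -/

theorem bc_iff (c x : Bool) : bc c x false = true ↔ c = true ∧ x = true := by
  cases c <;> cases x <;> simp [bc]

theorem al_iff (n : ℕ) (f : ℕ → Bool) : al n f = true ↔ ∀ k < n, f k = true := by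
  induction n with
  | zero =>
    constructor
    · intro _ k hk
      omega
    · intro _
      rfl
  | succ n ih =>
    have h : al (n + 1) f = bc (f n) (al n f) false := rfl
    rw [h, bc_iff, ih]
    constructor
    · rintro ⟨h1, h2⟩ k hk
      rcases Nat.lt_succ_iff_lt_or_eq.1 hk with h3 | h3
      · exact h2 k h3
      · rw [h3]; exact h1
    · intro h1
      exact ⟨h1 n (by omega), fun k hk => h1 k (by omega)⟩

/-! ### affine functions -/

/-- `g` is affine over the field with two elements on the numbers below 1024 -/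
def Aff (g : ℕ → ℕ) : Prop := ∀ x < 1024, ∀ y < 1024, g (x ^^^ y) = g x ^^^ g y ^^^ g 0

theorem xlt {x y : ℕ} (hx : x < 1024) (hy : y < 1024) : x ^^^ y < 1024 :=
  Nat.xor_lt_two_pow (n := 10) hx hy

theorem Aff.comp {g h : ℕ → ℕ} (hg : Aff g) (hh : Aff h) (hb : ∀ x < 1024, h x < 1024) :
    Aff (fun x => g (h x)) := by
  intro x hx y hy
  show g (h (x ^^^ y)) = g (h x) ^^^ g (h y) ^^^ g (h 0)
  rw [hh x hx y hy, hg (h x ^^^ h y) (xlt (hb x hx) (hb y hy)) (h 0) (hb 0 (by norm_num)),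
    hg (h x) (hb x hx) (h y) (hb y hy)]
  apply Nat.eq_of_testBit_eq
  intro i
  simp only [Nat.testBit_xor]
  cases (g (h x)).testBit i <;> cases (g (h y)).testBit i <;> cases (g 0).testBit i <;>
    cases (g (h 0)).testBit i <;> rfl

theorem Aff.mod {g : ℕ → ℕ} (hg : Aff g) : Aff (fun x => g x % 1024) := by
  intro x hx y hy
  show g (x ^^^ y) % 1024 = (g x % 1024) ^^^ (g y % 1024) ^^^ (g 0 % 1024)
  have e : (1024 : ℕ) = 2 ^ 10 := by norm_num
  rw [hg x hx y hy, e, Nat.xor_mod_two_pow, Nat.xor_mod_two_pow]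

theorem xor_pow_lt {x j : ℕ} (h1 : 2 ^ j ≤ x) (h2 : x < 2 ^ (j + 1)) : x ^^^ 2 ^ j < 2 ^ j := by
  apply Nat.lt_pow_two_of_testBit
  intro i hi
  rw [Nat.testBit_xor, Nat.testBit_two_pow]
  rcases Nat.lt_or_eq_of_le hi with h | h
  · have h3 : x.testBit i = false :=
      Nat.testBit_eq_false_of_lt (h2.trans_le (Nat.pow_le_pow_right (by norm_num) h))
    rw [h3]
    have h4 : ¬ j = i := by omega
    simp [h4]
  · subst h
    have h3 : x.testBit j = true := by
      rw [Nat.testBit_eq_decide_div_mod_eq]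
      have h4 : x / 2 ^ j = 1 := by
        apply Nat.div_eq_of_lt_le
        · simpa using h1
        · rw [pow_succ] at h2
          omega
      rw [h4]
      simp
    rw [h3]
    simp

theorem Aff.agree {g h : ℕ → ℕ} (hg : Aff g) (hh : Aff h) (h0 : g 0 = h 0)
    (hj : ∀ j < 10, g (2 ^ j) = h (2 ^ j)) : ∀ x < 1024, g x = h x := by
  have key : ∀ j ≤ 10, ∀ x < 2 ^ j, g x = h x := by
    intro j
    induction j with
    | zero =>
      intro _ x hx
      have : x = 0 := by
        rw [pow_zero] at hx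
        omega
      rw [this, h0]
    | succ j ih =>
      intro hj1 x hx
      by_cases hx2 : x < 2 ^ j
      · exact ih (by omega) x hx2
      · have h1 := xor_pow_lt (Nat.le_of_not_lt hx2) hx
        have h2 : (x ^^^ 2 ^ j) ^^^ 2 ^ j = x := by
          rw [Nat.xor_assoc, Nat.xor_self, Nat.xor_zero]
        have h3 : 2 ^ j < 1024 := by
          calc 2 ^ j < 2 ^ 10 := Nat.pow_lt_pow_right (by norm_num) (by omega)
            _ = 1024 := by norm_num
        rw [← h2, hg _ (h1.trans h3) _ h3, hh _ (h1.trans h3) _ h3, h0, hj j (by omega),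
          ih (by omega) _ h1]
  intro x hx
  exact key 10 le_rfl x (by norm_num; exact hx)

/-! ### digits -/

/-- digit `i` of `X` in base `2 ^ w` -/
def dgt (w X i : ℕ) : ℕ := X / 2 ^ (w * i) % 2 ^ w

theorem dgt_lo {w n X Y i : ℕ} (hi : i < n) :
    dgt w (X + Y * 2 ^ (w * n)) i = dgt w X i := by
  unfold dgt
  obtain ⟨k, rfl⟩ : ∃ k, n = i + (k + 1) := ⟨n - i - 1, by omega⟩
  have e : Y * 2 ^ (w * (i + (k + 1))) = (Y * 2 ^ (w * k) * 2 ^ w) * 2 ^ (w * i) := by
    rw [Nat.mul_add, Nat.mul_add, pow_add, pow_add, mul_one]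
    ring
  rw [e, Nat.add_mul_div_right _ _ (by positivity), Nat.add_mul_mod_self_right]

theorem dgt_hi {w n X Y i : ℕ} (hX : X < 2 ^ (w * n)) :
    dgt w (X + Y * 2 ^ (w * n)) (n + i) = dgt w Y i := by
  unfold dgt
  rw [Nat.mul_add, pow_add, ← Nat.div_div_eq_div_mul, Nat.add_mul_div_right _ _ (by positivity),
    Nat.div_eq_of_lt hX, zero_add]

theorem dgt_xor (w X Y i : ℕ) : dgt w (X ^^^ Y) i = dgt w X i ^^^ dgt w Y i := by
  unfold dgt
  rw [← Nat.shiftRight_eq_div_pow, ← Nat.shiftRight_eq_div_pow, ← Nat.shiftRight_eq_div_pow,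
    Nat.shiftRight_xor_distrib, Nat.xor_mod_two_pow]

theorem dgt_and (w X Y i : ℕ) : dgt w (X &&& Y) i = dgt w X i &&& dgt w Y i := by
  unfold dgt
  rw [← Nat.shiftRight_eq_div_pow, ← Nat.shiftRight_eq_div_pow, ← Nat.shiftRight_eq_div_pow,
    Nat.shiftRight_and_distrib, Nat.and_mod_two_pow]

theorem dgt_or (w X Y i : ℕ) : dgt w (X ||| Y) i = dgt w X i ||| dgt w Y i := by
  unfold dgt
  rw [← Nat.shiftRight_eq_div_pow, ← Nat.shiftRight_eq_div_pow, ← Nat.shiftRight_eq_div_pow,
    Nat.shiftRight_or_distrib, Nat.or_mod_two_pow]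

theorem dgt_shr (w X b i : ℕ) : dgt w (X >>> (w * b)) i = dgt w X (i + b) := by
  unfold dgt
  rw [Nat.shiftRight_eq_div_pow, Nat.div_div_eq_div_mul, ← pow_add, ← Nat.mul_add, Nat.add_comm b i]

theorem dgt_shl (w X a i : ℕ) : dgt w (X <<< (w * a)) (i + a) = dgt w X i := by
  have h := dgt_hi (w := w) (n := a) (X := 0) (Y := X) (i := i) (by positivity)
  rw [Nat.shiftLeft_eq, Nat.add_comm i a]
  rw [zero_add] at h
  exact h

theorem dgt_lt (w X i : ℕ) : dgt w X i < 2 ^ w := Nat.mod_lt _ (by positivity)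

/-! ### affine tables -/

/-- affine function with the values `v` at zero and differences `a` -/
def afs (a : ℕ → ℕ) (v : ℕ) : ℕ → ℕ → ℕ
  | 0, _ => v
  | j + 1, g => afs a v j g ^^^ (if g.testBit j = true then a j else 0)

theorem afs_congr (a : ℕ → ℕ) (v : ℕ) : ∀ (j g g' : ℕ), (∀ i < j, g.testBit i = g'.testBit i) →
    afs a v j g = afs a v j g'
  | 0, _, _, _ => rfl
  | j + 1, g, g', h => by
    unfold afs
    rw [afs_congr a v j g g' (fun i hi => h i (by omega)), h j (by omega)]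

theorem afs_xor (a : ℕ → ℕ) (v x y : ℕ) : ∀ j : ℕ,
    afs a v j (x ^^^ y) = afs a v j x ^^^ afs a v j y ^^^ v
  | 0 => by
    unfold afs
    rw [Nat.xor_self, Nat.zero_xor]
  | j + 1 => by
    unfold afs
    rw [afs_xor a v x y j, Nat.testBit_xor]
    apply Nat.eq_of_testBit_eq
    intro i
    simp only [Nat.testBit_xor]
    cases x.testBit j <;> cases y.testBit j <;> simp <;>
    cases (afs a v j x).testBit i <;> cases (afs a v j y).testBit i <;> cases v.testBit i <;>
    cases (a j).testBit i <;> rfl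

/-- the last steps of the check that the table `T` is affine -/
def go (w m T v : ℕ) (k : ℕ) : ℕ → ℕ → ℕ → Bool :=
  @Nat.rec (fun _ => ℕ → ℕ → ℕ → Bool) (fun _ X _ => Nat.beq X T)
    (fun _ r n X U => st (fun X' => st (fun U' => st (fun n' => r n' X' U') (Nat.mul 2 n))
      (Nat.add U (Nat.shiftLeft U (Nat.mul w n))))
      (Nat.add X (Nat.shiftLeft (Nat.xor X (Nat.mul (Nat.xor v (tb T w m n)) U)) (Nat.mul w n)))) k

/-- check that the table `T` with 1024 records is affine -/
def ckT (w m T : ℕ) : Bool := st (fun v => go w m T v 10 1 v 1) (tb T w m 0)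

theorem tb_eq {w m : ℕ} (hm : m = 2 ^ w) (T i : ℕ) : tb T w m i = dgt w T i := by
  unfold dgt
  have h : tb T w m i = (T >>> (w * i)) % m := rfl
  rw [h, hm, Nat.shiftRight_eq_div_pow]

theorem go_spec {w m T v : ℕ} (hm : m = 2 ^ w) (hv : v < 2 ^ w) (a : ℕ → ℕ)
    (ha : ∀ j, a j = v ^^^ dgt w T (2 ^ j)) : ∀ (k j X U : ℕ), X < 2 ^ (w * 2 ^ j) →
    (∀ g < 2 ^ j, dgt w X g = afs a v j g) →
    (∀ b < 2 ^ w, b * U < 2 ^ (w * 2 ^ j) ∧ ∀ g < 2 ^ j, dgt w (b * U) g = b) →
    go w m T v k (2 ^ j) X U = true → ∀ g < 2 ^ (j + k), dgt w T g = afs a v (j + k) g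
  | 0, j, X, U, _, h2, _, h => by
    have h' : X = T := Nat.eq_of_beq_eq_true h
    rw [← h']
    exact h2
  | k + 1, j, X, U, h1, h2, h3, h => by
    have hs : go w m T v (k + 1) (2 ^ j) X U = go w m T v k (2 * 2 ^ j)
        (X + (X ^^^ ((v ^^^ tb T w m (2 ^ j)) * U)) <<< (w * 2 ^ j))
        (U + U <<< (w * 2 ^ j)) := by
      show st (fun X' => st (fun U' => st (fun n' => go w m T v k n' X' U') (Nat.mul 2 (2 ^ j)))
        (Nat.add U (Nat.shiftLeft U (Nat.mul w (2 ^ j)))))
        (Nat.add X (Nat.shiftLeft (Nat.xor X (Nat.mul (Nat.xor v (tb T w m (2 ^ j))) U))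
          (Nat.mul w (2 ^ j)))) = _
      rw [st_eq, st_eq, st_eq]
      rfl
    rw [hs, tb_eq hm, ← ha j] at h
    have hp : 2 * 2 ^ j = 2 ^ (j + 1) := by rw [pow_succ]; ring
    rw [hp] at h
    have haj : a j < 2 ^ w := by
      rw [ha]
      exact Nat.xor_lt_two_pow hv (dgt_lt _ _ _)
    have hpw : w * 2 ^ (j + 1) = w * 2 ^ j + w * 2 ^ j := by rw [pow_succ]; ring
    have hsum : ∀ A B : ℕ, A < 2 ^ (w * 2 ^ j) → B < 2 ^ (w * 2 ^ j) →
        A + B * 2 ^ (w * 2 ^ j) < 2 ^ (w * 2 ^ (j + 1)) := by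
      intro A B hA hB
      rw [hpw, pow_add]
      nlinarith
    obtain ⟨u1, u2⟩ := h3 (a j) haj
    have hx : X ^^^ (a j * U) < 2 ^ (w * 2 ^ j) := Nat.xor_lt_two_pow h1 u1
    have h4 := go_spec hm hv a ha k (j + 1)
      (X + (X ^^^ (a j * U)) <<< (w * 2 ^ j)) (U + U <<< (w * 2 ^ j)) ?_ ?_ ?_ h
    · have e : j + 1 + k = j + (k + 1) := by omega
      rw [e] at h4
      exact h4
    · rw [Nat.shiftLeft_eq]
      exact hsum _ _ h1 hx
    · intro g hg
      rw [Nat.shiftLeft_eq]
      by_cases hgj : g < 2 ^ j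
      · rw [dgt_lo hgj, h2 g hgj]
        have : g.testBit j = false := Nat.testBit_eq_false_of_lt hgj
        rw [afs, this]
        simp
      · obtain ⟨r, rfl⟩ : ∃ r, g = 2 ^ j + r := ⟨g - 2 ^ j, by omega⟩
        have hr : r < 2 ^ j := by
          rw [pow_succ] at hg
          omega
        rw [dgt_hi h1, dgt_xor, h2 r hr, u2 r hr, afs]
        have hbit : (2 ^ j + r).testBit j = true := by
          rw [Nat.testBit_two_pow_add_eq, Nat.testBit_eq_false_of_lt hr]
          rfl
        rw [hbit, if_pos rfl]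
        congr 1
        apply afs_congr
        intro i hi
        rw [Nat.testBit_two_pow_add_gt hi]
    · intro b hb
      obtain ⟨v1, v2⟩ := h3 b hb
      have e : b * (U + U <<< (w * 2 ^ j)) = b * U + (b * U) * 2 ^ (w * 2 ^ j) := by
        rw [Nat.shiftLeft_eq]
        ring
      rw [e]
      refine ⟨hsum _ _ v1 v1, fun g hg => ?_⟩
      by_cases hgj : g < 2 ^ j
      · rw [dgt_lo hgj, v2 g hgj]
      · obtain ⟨r, rfl⟩ : ∃ r, g = 2 ^ j + r := ⟨g - 2 ^ j, by omega⟩
        have hr : r < 2 ^ j := by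
          rw [pow_succ] at hg
          omega
        rw [dgt_hi v1, v2 r hr]

/-- soundness of the check -/
theorem ckT_aff {w m T : ℕ} (hm : m = 2 ^ w) (h : ckT w m T = true) :
    Aff (fun f => tb T w m f) := by
  have h' : go w m T (tb T w m 0) 10 1 (tb T w m 0) 1 = true := by
    have e : ckT w m T = st (fun v => go w m T v 10 1 v 1) (tb T w m 0) := rfl
    rw [e, st_eq] at h
    exact h
  set v := tb T w m 0 with hv
  have hvl : v < 2 ^ w := by
    rw [hv, tb_eq hm]
    exact dgt_lt _ _ _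
  have key := go_spec hm hvl (fun j => v ^^^ dgt w T (2 ^ j)) (fun _ => rfl) 10 0 v 1
    (by rw [pow_zero, mul_one]; exact hvl)
    (fun g hg => by
      have : g = 0 := by
        rw [pow_zero] at hg
        omega
      subst this
      show dgt w v 0 = v
      unfold dgt
      rw [Nat.mul_zero, pow_zero, Nat.div_one, Nat.mod_eq_of_lt hvl])
    (fun b hb => ⟨by rw [pow_zero, mul_one, mul_one]; exact hb, fun g hg => by
      have : g = 0 := by
        rw [pow_zero] at hg
        omega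
      subst this
      unfold dgt
      rw [Nat.mul_zero, pow_zero, Nat.div_one, mul_one, Nat.mod_eq_of_lt hb]⟩) h'
  have k2 : ∀ g < 1024, tb T w m g = afs (fun j => v ^^^ dgt w T (2 ^ j)) v 10 g := by
    intro g hg
    rw [tb_eq hm]
    exact key g (by norm_num; exact hg)
  intro x hx y hy
  show tb T w m (x ^^^ y) = tb T w m x ^^^ tb T w m y ^^^ tb T w m 0
  rw [k2 _ (xlt hx hy), k2 x hx, k2 y hy, afs_xor, ← hv]

end Pool.Agent.Y809.Q440
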