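import Pool.Agent.Y440.A.Stm
import Pool.Agent.Y809.Q440.Lem

/-! The actions of the five transpositions on the codes of flags are affine. -/

set_option autoImplicit false
set_option maxRecDepth 100000

namespace Pool.Agent.Y809.Q440

open Pool.Agent.Y440.A

theorem cons_xor {a a' u v : ℕ} (_ha : a ≤ 1) (_ha' : a' ≤ 1) :
    (a + 2 * u) ^^^ (a' + 2 * v) = (a + a') % 2 + 2 * (u ^^^ v) := by
  have h1 : ((a + 2 * u) ^^^ (a' + 2 * v)) % 2 = (a + a') % 2 := by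
    rw [Nat.xor_mod_two_eq]; omega
  have h2 : ((a + 2 * u) ^^^ (a' + 2 * v)) / 2 = u ^^^ v := by
    rw [Nat.xor_div_two]
    congr 1 <;> omega
  rw [← Nat.mod_add_div ((a + 2 * u) ^^^ (a' + 2 * v)) 2, h1, h2]

theorem one_xor {a a' : ℕ} (ha : a ≤ 1) (ha' : a' ≤ 1) : a ^^^ a' = (a + a') % 2 := by
  have h := cons_xor (u := 0) (v := 0) ha ha'
  simpa using h

theorem b10_xor {x0 x1 x2 x3 x4 x5 x6 x7 x8 x9 y0 y1 y2 y3 y4 y5 y6 y7 y8 y9 : ℕ}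
    (hx0 : x0 ≤ 1) (hx1 : x1 ≤ 1) (hx2 : x2 ≤ 1) (hx3 : x3 ≤ 1) (hx4 : x4 ≤ 1) (hx5 : x5 ≤ 1)
    (hx6 : x6 ≤ 1) (hx7 : x7 ≤ 1) (hx8 : x8 ≤ 1) (hx9 : x9 ≤ 1)
    (hy0 : y0 ≤ 1) (hy1 : y1 ≤ 1) (hy2 : y2 ≤ 1) (hy3 : y3 ≤ 1) (hy4 : y4 ≤ 1) (hy5 : y5 ≤ 1)
    (hy6 : y6 ≤ 1) (hy7 : y7 ≤ 1) (hy8 : y8 ≤ 1) (hy9 : y9 ≤ 1) :
    b10 x0 x1 x2 x3 x4 x5 x6 x7 x8 x9 ^^^ b10 y0 y1 y2 y3 y4 y5 y6 y7 y8 y9 =
      b10 ((x0 + y0) % 2) ((x1 + y1) % 2) ((x2 + y2) % 2) ((x3 + y3) % 2) ((x4 + y4) % 2)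
        ((x5 + y5) % 2) ((x6 + y6) % 2) ((x7 + y7) % 2) ((x8 + y8) % 2) ((x9 + y9) % 2) := by
  unfold b10
  rw [cons_xor hx0 hy0, cons_xor hx1 hy1, cons_xor hx2 hy2, cons_xor hx3 hy3, cons_xor hx4 hy4,
    cons_xor hx5 hy5, cons_xor hx6 hy6, cons_xor hx7 hy7, cons_xor hx8 hy8, one_xor hx9 hy9]

theorem b10_lt {x0 x1 x2 x3 x4 x5 x6 x7 x8 x9 : ℕ}
    (hx0 : x0 ≤ 1) (hx1 : x1 ≤ 1) (hx2 : x2 ≤ 1) (hx3 : x3 ≤ 1) (hx4 : x4 ≤ 1) (hx5 : x5 ≤ 1)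
    (hx6 : x6 ≤ 1) (hx7 : x7 ≤ 1) (hx8 : x8 ≤ 1) (hx9 : x9 ≤ 1) :
    b10 x0 x1 x2 x3 x4 x5 x6 x7 x8 x9 < 1024 := by
  unfold b10
  omega

theorem bt_xor (k x y : ℕ) : bt k (x ^^^ y) = (bt k x + bt k y) % 2 := by
  unfold bt
  rw [Nat.xor_div_two_pow, Nat.xor_mod_two_eq]
  omega

theorem bt_le (k x : ℕ) : bt k x ≤ 1 := by
  unfold bt
  omega

theorem bt_zero (k : ℕ) : bt k 0 = 0 := by
  unfold bt
  rw [Nat.zero_div]

theorem mod_le (x : ℕ) : x % 2 ≤ 1 := by omega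

theorem F0_aff (c x y : ℕ) : F0 c (x ^^^ y) = F0 c x ^^^ F0 c y ^^^ F0 c 0 := by
  simp only [F0, bt_xor, bt_zero]
  rw [b10_xor, b10_xor]
  · congr 1 <;> omega
  all_goals first | exact bt_le _ _ | exact mod_le _ | exact Nat.zero_le _

theorem F0_joint (c f : ℕ) : F0 c f = F0 c 0 ^^^ F0 0 f ^^^ F0 0 0 := by
  simp only [F0, bt_zero]
  rw [b10_xor, b10_xor]
  · have h0 := bt_le 0 f
    have h1 := bt_le 1 f
    have h3 := bt_le 3 f
    have h6 := bt_le 6 f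
    congr 1 <;> omega
  all_goals first | exact bt_le _ _ | exact mod_le _ | exact Nat.zero_le _

theorem F1_aff (c x y : ℕ) : F1 c (x ^^^ y) = F1 c x ^^^ F1 c y ^^^ F1 c 0 := by
  simp only [F1, bt_xor, bt_zero]
  rw [b10_xor, b10_xor]
  · congr 1 <;> omega
  all_goals first | exact bt_le _ _ | exact mod_le _ | exact Nat.zero_le _

theorem F2_aff (c x y : ℕ) : F2 c (x ^^^ y) = F2 c x ^^^ F2 c y ^^^ F2 c 0 := by
  simp only [F2, bt_xor, bt_zero]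
  rw [b10_xor, b10_xor]
  · congr 1 <;> omega
  all_goals first | exact bt_le _ _ | exact mod_le _ | exact Nat.zero_le _

theorem F3_aff (c x y : ℕ) : F3 c (x ^^^ y) = F3 c x ^^^ F3 c y ^^^ F3 c 0 := by
  simp only [F3, bt_xor, bt_zero]
  rw [b10_xor, b10_xor]
  · congr 1 <;> omega
  all_goals first | exact bt_le _ _ | exact mod_le _ | exact Nat.zero_le _

theorem F4_aff (c x y : ℕ) : F4 c (x ^^^ y) = F4 c x ^^^ F4 c y ^^^ F4 c 0 := by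
  simp only [F4, bt_xor, bt_zero]
  rw [b10_xor, b10_xor]
  · congr 1 <;> omega
  all_goals first | exact bt_le _ _ | exact mod_le _ | exact Nat.zero_le _

theorem F0_lt (c f : ℕ) : F0 c f < 1024 := by
  apply b10_lt
  all_goals first | exact bt_le _ _ | exact mod_le _

theorem F1_lt (c f : ℕ) : F1 c f < 1024 := by
  apply b10_lt
  all_goals first | exact bt_le _ _ | exact mod_le _

theorem F2_lt (c f : ℕ) : F2 c f < 1024 := by
  apply b10_lt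
  all_goals first | exact bt_le _ _ | exact mod_le _

theorem F3_lt (c f : ℕ) : F3 c f < 1024 := by
  apply b10_lt
  all_goals first | exact bt_le _ _ | exact mod_le _

theorem F4_lt (c f : ℕ) : F4 c f < 1024 := by
  apply b10_lt
  all_goals first | exact bt_le _ _ | exact mod_le _

theorem C0_lt (c : ℕ) : C0 c < 1024 := by
  apply b10_lt
  all_goals first | exact bt_le _ _ | exact mod_le _

theorem C1_lt (c : ℕ) : C1 c < 1024 := by
  apply b10_lt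
  all_goals first | exact bt_le _ _ | exact mod_le _

theorem C2_lt (c : ℕ) : C2 c < 1024 := by
  apply b10_lt
  all_goals first | exact bt_le _ _ | exact mod_le _

theorem C3_lt (c : ℕ) : C3 c < 1024 := by
  apply b10_lt
  all_goals first | exact bt_le _ _ | exact mod_le _

theorem C4_lt (c : ℕ) : C4 c < 1024 := by
  apply b10_lt
  all_goals first | exact bt_le _ _ | exact mod_le _

end Pool.Agent.Y809.Q440
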