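import Pool.Agent.Y440.K.Stm
import Pool.Agent.Y440.K.Grp
import Pool.Agent.Y809.Q440.Act

/-! Comparison of the indices of the flags over the codes `c` and `Ci c`: the checks. -/

set_option autoImplicit false
set_option maxRecDepth 100000

namespace Pool.Agent.Y809.Q440

open Pool.Agent.Y440 Pool.Agent.Y440.K
open Pool.Agent.Y440.B (al bc st tb st_eq)
open Pool.Agent.Y440.A (F0 F1 F2 F3 F4 C1 C2 C3 C4)

noncomputable section

/-- actions on the flags `0` and `2 ^ j`, ten bits each (for the first action: difference with the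
action for the code zero on the flag zero) -/
def Z0 : ℕ := 649354175842820289605008567194624
def Z1 : ℕ := 649354097489315596217723056555008
def Z2 : ℕ := 649195873202468150094153294809088
def Z3 : ℕ := 325152533776640513876316315976704
def Z4 : ℕ := 649076740750663724625655368778752

/-- comparison at eleven flags -/
def pts (T T' H Z z : ℕ) : Bool :=
  al 11 (fun j => Nat.beq (Nat.mod (tb T' 14 16384 (Nat.xor z (tb Z 10 1024 j))) 1024)
    (tb H 10 1024 (Nat.mod (tb T 14 16384 (Nat.shiftRight (Nat.shiftLeft 1 j) 1)) 1024)))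

/-- check of the code `c` with image `c'` -/
def ckP (g Z z c c' : ℕ) : Bool :=
  st (fun w => st (fun T => st (fun T' => bc (Nat.beq w 127)
    (bc (Nat.beq (tb T 14 16384 0) 14336) (Nat.beq (tb T' 14 16384 0) 14336) false)
    (bc (Nat.ble w 67) (st (fun t => bc (Nat.beq (Nat.div (tb T 14 16384 0) 1024) t)
      (bc (Nat.beq (Nat.div (tb T' 14 16384 0) 1024) t)
        (st (fun H => pts T T' H Z z) (gfT.getD w 0)) false) false) (gty.getD w 0)) false))
    (ctb c')) (ctb c)) (tb g 7 128 c)

end

theorem ckC : al 1024 (fun c => st (fun T => ckT 14 16384 T) (ctb c)) = true := by decide +kernel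

theorem ckH : al 68 (fun w => st (fun T => ckT 10 1024 T) (gfT.getD w 0)) = true := by
  decide +kernel

theorem ckQ0 : al 1024 (fun c => st (fun z => st (fun c' => ckP gi0 Z0 z c c') (A.C0 c))
    (F0 c 0)) = true := by decide +kernel

theorem ckQ1 : al 1024 (fun c => st (fun c' => ckP gi1 Z1 0 c c') (C1 c)) = true := by
  decide +kernel

theorem ckQ2 : al 1024 (fun c => st (fun c' => ckP gi2 Z2 0 c c') (C2 c)) = true := by
  decide +kernel

theorem ckQ3 : al 1024 (fun c => st (fun c' => ckP gi3 Z3 0 c c') (C3 c)) = true := by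
  decide +kernel

theorem ckQ4 : al 1024 (fun c => st (fun c' => ckP gi4 Z4 0 c c') (C4 c)) = true := by
  decide +kernel

theorem z0_spec : ∀ j < 11, F0 0 ((1 <<< j) >>> 1) ^^^ F0 0 0 = tb Z0 10 1024 j := by
  decide +kernel

theorem z1_spec : ∀ j < 11, F1 0 ((1 <<< j) >>> 1) = tb Z1 10 1024 j := by decide +kernel

theorem z2_spec : ∀ j < 11, F2 0 ((1 <<< j) >>> 1) = tb Z2 10 1024 j := by decide +kernel

theorem z3_spec : ∀ j < 11, F3 0 ((1 <<< j) >>> 1) = tb Z3 10 1024 j := by decide +kernel

theorem z4_spec : ∀ j < 11, F4 0 ((1 <<< j) >>> 1) = tb Z4 10 1024 j := by decide +kernel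

end Pool.Agent.Y809.Q440
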