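import Pool.Agent.Y440.K.Stm
import Pool.Agent.Y440.K.Grp
import Pool.Agent.Y809.Q440.Lem

/-! Comparison of packed records: digits of 56 bits, permutations of digits by masks and shifts. -/

set_option autoImplicit false
set_option maxRecDepth 100000

namespace Pool.Agent.Y809.Q440

open Pool.Agent.Y440 Pool.Agent.Y440.K
open Pool.Agent.Y440.B (al bc st tb st_eq)

/-- digit `m` of `X` in base `2 ^ 56` -/
def dg (X m : ℕ) : ℕ := Nat.mod (Nat.shiftRight X (Nat.mul 56 m)) 72057594037927936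

theorem dg_eq (X m : ℕ) : dg X m = dgt 56 X m := by
  unfold dgt
  have h : dg X m = (X >>> (56 * m)) % 72057594037927936 := rfl
  have e : (72057594037927936 : ℕ) = 2 ^ 56 := by norm_num
  rw [h, e, Nat.shiftRight_eq_div_pow]

theorem dg_lt (X m : ℕ) : dg X m < 2 ^ 56 := by
  rw [dg_eq]
  exact dgt_lt _ _ _

theorem dg_and (X Y m : ℕ) : dg (Nat.land X Y) m = dg X m &&& dg Y m := by
  rw [dg_eq, dg_eq, dg_eq]
  exact dgt_and 56 X Y m

theorem dg_or (X Y m : ℕ) : dg (Nat.lor X Y) m = dg X m ||| dg Y m := by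
  rw [dg_eq, dg_eq, dg_eq]
  exact dgt_or 56 X Y m

theorem and_full {x : ℕ} (hx : x < 2 ^ 56) : x &&& 72057594037927935 = x := by
  have e : (72057594037927935 : ℕ) = 2 ^ 56 - 1 := by norm_num
  rw [e, Nat.and_two_pow_sub_one_eq_mod, Nat.mod_eq_of_lt hx]

/-- shift left by `a` digits, right by `b` digits, mask `M` -/
def en (a b M X : ℕ) : ℕ :=
  Nat.land (Nat.shiftRight (Nat.shiftLeft X (Nat.mul 56 a)) (Nat.mul 56 b)) M

/-- combination of the masked shifts of a list -/
def pml : List (ℕ × ℕ × ℕ) → ℕ → ℕ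
  | [], _ => 0
  | e :: r, X => Nat.lor (en e.1 e.2.1 e.2.2 X) (pml r X)

/-- digit `m` of all masks is zero -/
def az : List (ℕ × ℕ × ℕ) → ℕ → Bool
  | [], _ => true
  | e :: r, m => bc (Nat.beq (dg e.2.2 m) 0) (az r m) false

/-- digit `m` of the combination is digit `m'` of the argument -/
def sOK : List (ℕ × ℕ × ℕ) → ℕ → ℕ → Bool
  | [], _, _ => false
  | e :: r, m, m' => bc (Nat.beq (dg e.2.2 m) 0) (sOK r m m')
      (bc (Nat.beq (dg e.2.2 m) 72057594037927935) (bc (Nat.beq (m + e.2.1) (m' + e.1)) (az r m)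
        false) false)

theorem beq_iff {a b : ℕ} : Nat.beq a b = true ↔ a = b :=
  ⟨Nat.eq_of_beq_eq_true, fun h => by subst h; exact Nat.beq_refl a⟩

theorem bc_cases {c : Bool} {x y : Bool} (h : bc c x y = true) :
    (c = true ∧ x = true) ∨ (c = false ∧ y = true) := by
  cases c
  · right; exact ⟨rfl, h⟩
  · left; exact ⟨rfl, h⟩

theorem az_spec : ∀ (l : List (ℕ × ℕ × ℕ)) (m X : ℕ), az l m = true → dg (pml l X) m = 0
  | [], m, X, _ => by
    show dg 0 m = 0
    rw [dg_eq]
    unfold dgt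
    simp
  | e :: r, m, X, h => by
    have h' : bc (Nat.beq (dg e.2.2 m) 0) (az r m) false = true := h
    rw [bc_iff, beq_iff] at h'
    show dg (Nat.lor (en e.1 e.2.1 e.2.2 X) (pml r X)) m = 0
    rw [dg_or, az_spec r m X h'.2, en, dg_and, h'.1]
    simp

theorem en_dg {a b M X m m' : ℕ} (h : m + b = m' + a) (hM : dg M m = 72057594037927935) :
    dg (en a b M X) m = dg X m' := by
  rw [en, dg_and, hM, and_full (dg_lt _ _), dg_eq, dg_eq]
  have e1 : Nat.shiftRight (Nat.shiftLeft X (Nat.mul 56 a)) (Nat.mul 56 b) =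
    (X <<< (56 * a)) >>> (56 * b) := rfl
  rw [e1, dgt_shr, h, dgt_shl]

theorem sOK_spec : ∀ (l : List (ℕ × ℕ × ℕ)) (m m' X : ℕ), sOK l m m' = true →
    dg (pml l X) m = dg X m'
  | [], m, m', X, h => by exact absurd h (by simp [sOK])
  | e :: r, m, m', X, h => by
    have h' : bc (Nat.beq (dg e.2.2 m) 0) (sOK r m m')
      (bc (Nat.beq (dg e.2.2 m) 72057594037927935) (bc (Nat.beq (m + e.2.1) (m' + e.1)) (az r m)
        false) false) = true := h
    show dg (Nat.lor (en e.1 e.2.1 e.2.2 X) (pml r X)) m = dg X m'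
    rcases bc_cases h' with ⟨h1, h2⟩ | ⟨_, h2⟩
    · rw [beq_iff] at h1
      rw [dg_or, sOK_spec r m m' X h2, en, dg_and, h1]
      simp
    · rw [bc_iff, bc_iff, beq_iff, beq_iff] at h2
      obtain ⟨h3, h4, h5⟩ := h2
      rw [dg_or, az_spec r m X h5, en_dg h4 h3]
      simp

/-- comparison of the records `X` and `Y` -/
def cw (N S V : ℕ) (z : ℕ → ℕ) (X Y : ℕ) : Bool :=
  st (fun Z => bc (Nat.beq (Nat.land Y N) (Nat.land Z N))
    (Nat.beq (Nat.add (Nat.land Y S) (Nat.land Z S)) V) false) (z X)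

/-- square `k` corresponds to this square -/
noncomputable def pp (w k : ℕ) : ℕ := (gpT.getD w []).getD k 0

/-- sign of the square `k` -/
noncomputable def ss (w k : ℕ) : ℕ := (gsT.getD w []).getD k 0

/-- check of the masks -/
noncomputable def spc (w D c : ℕ) (l : List (ℕ × ℕ × ℕ)) (N S V : ℕ) : Bool :=
  bc (Nat.beq (dg S 0) 0) (al D (fun k => st (fun m => st (fun s => st (fun p =>
    bc (Nat.ble (Nat.succ p) D) (bc (sOK l m (Nat.sub D p))
      (bc (Nat.beq s 0) (bc (Nat.beq (dg N m) 72057594037927935) (Nat.beq (dg S m) 0) false)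
        (bc (Nat.beq (dg S m) 72057594037927935) (Nat.beq (dg V m) c) false)) false) false)
      (pp w k)) (ss w k)) (Nat.sub D k))) false

theorem carry (P Q : ℕ) : ∀ M : ℕ, (∀ i < M, dg P i + dg Q i < 2 ^ 56) →
    P % 2 ^ (56 * M) + Q % 2 ^ (56 * M) < 2 ^ (56 * M)
  | 0, _ => by simp [Nat.mod_one]
  | M + 1, h => by
    have ih := carry P Q M (fun i hi => h i (by omega))
    have h1 := h M (by omega)
    rw [dg_eq, dg_eq] at h1
    unfold dgt at h1
    have e : ∀ X : ℕ, X % 2 ^ (56 * (M + 1)) =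
        X % 2 ^ (56 * M) + 2 ^ (56 * M) * (X / 2 ^ (56 * M) % 2 ^ 56) := by
      intro X
      rw [Nat.mul_add, mul_one, pow_add, Nat.mod_mul]
    rw [e P, e Q]
    have e2 : 2 ^ (56 * (M + 1)) = 2 ^ (56 * M) * 2 ^ 56 := by
      rw [Nat.mul_add, mul_one, pow_add]
    rw [e2]
    have h2 : 0 < 2 ^ (56 * M) := by positivity
    generalize 2 ^ (56 * M) = B at *
    generalize P / B % 2 ^ 56 = p at *
    generalize Q / B % 2 ^ 56 = q at *
    have h3 : p + q + 1 ≤ 2 ^ 56 := h1
    calc P % B + B * p + (Q % B + B * q) = (P % B + Q % B) + B * (p + q) := by ring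
      _ < B + B * (p + q) := by omega
      _ = B * (p + q + 1) := by ring
      _ ≤ B * 2 ^ 56 := Nat.mul_le_mul_left _ h3

theorem dg_add {P Q M : ℕ} (h : ∀ i ≤ M, dg P i + dg Q i < 2 ^ 56) :
    dg (P + Q) M = dg P M + dg Q M := by
  have h1 := carry P Q M (fun i hi => h i (by omega))
  have h2 := h M le_rfl
  rw [dg_eq, dg_eq] at h2 ⊢
  rw [dg_eq]
  unfold dgt at h2 ⊢
  rw [Nat.add_div (by positivity), if_neg (by omega), add_zero, Nat.add_mod,
    Nat.mod_eq_of_lt h2]

theorem high_bit {X H m : ℕ} (h : Nat.land X H = 0) (hH : dg H m = 36028797018963968) :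
    dg X m < 2 ^ 55 := by
  have h1 : dg (Nat.land X H) m = 0 := by
    rw [h, dg_eq]
    unfold dgt
    simp
  rw [dg_and, hH] at h1
  have e : (36028797018963968 : ℕ) = 2 ^ 55 := by norm_num
  rw [e] at h1
  by_contra hcon
  have h2 : 2 ^ 55 ≤ dg X m := Nat.le_of_not_lt hcon
  have h3 := dg_lt X m
  have h4 : (dg X m).testBit 55 = true := by
    rw [Nat.testBit_eq_decide_div_mod_eq]
    have h5 : dg X m / 2 ^ 55 = 1 := by
      apply Nat.div_eq_of_lt_le
      · omega
      · omega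
    rw [h5]
    simp
  have h6 : (dg X m &&& 2 ^ 55).testBit 55 = true := by
    rw [Nat.testBit_and, h4, Nat.testBit_two_pow_self]
    rfl
  rw [h1, Nat.zero_testBit] at h6
  exact absurd h6 (by simp)

/-- soundness of the comparison of records -/
theorem snd {w D c : ℕ} {gb h z : ℕ → ℕ} {l : List (ℕ × ℕ × ℕ)} {N S V H : ℕ}
    (hsp : spc w D c l N S V = true)
    (hH : ∀ m, 1 ≤ m → m ≤ D → dg H m = 36028797018963968)
    (hz : ∀ X, z X = pml l X) (hX : ∀ f < 1024, Nat.land (gb f) H = 0)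
    (hh : ∀ f < 1024, h f < 1024)
    (hc : ∀ f < 1024, cw N S V z (gb f) (gb (h f)) = true) :
    ∀ f < 1024, ∀ k < D, pp w k < D ∧
      (ss w k = 0 → dg (gb (h f)) (D - k) = dg (gb f) (D - pp w k)) ∧
      (ss w k ≠ 0 → dg (gb (h f)) (D - k) + dg (gb f) (D - pp w k) = c) := by
  unfold spc at hsp
  rw [bc_iff, beq_iff, al_iff] at hsp
  obtain ⟨hS0, hsp⟩ := hsp
  have hk : ∀ k < D, pp w k < D ∧ sOK l (D - k) (D - pp w k) = true ∧
      ((ss w k = 0 ∧ dg N (D - k) = 72057594037927935 ∧ dg S (D - k) = 0) ∨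
        (ss w k ≠ 0 ∧ dg S (D - k) = 72057594037927935 ∧ dg V (D - k) = c)) := by
    intro k hk
    have h1 := hsp k hk
    rw [st_eq, st_eq, st_eq, bc_iff, bc_iff] at h1
    obtain ⟨h2, h3, h4⟩ := h1
    refine ⟨Nat.le_of_ble_eq_true h2, h3, ?_⟩
    rcases bc_cases h4 with ⟨h5, h6⟩ | ⟨h5, h6⟩
    · left
      rw [beq_iff] at h5
      rw [bc_iff, beq_iff, beq_iff] at h6
      exact ⟨h5, h6.1, h6.2⟩
    · right
      rw [bc_iff, beq_iff, beq_iff] at h6
      refine ⟨?_, h6.1, h6.2⟩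
      intro h7
      rw [beq_iff.2 h7] at h5
      exact absurd h5 (by simp)
  intro f hf k hkD
  obtain ⟨hp, hs, hcase⟩ := hk k hkD
  have hcf := hc f hf
  unfold cw at hcf
  rw [st_eq, bc_iff, beq_iff, beq_iff, hz] at hcf
  obtain ⟨c1, c2⟩ := hcf
  have hZ : ∀ i, 1 ≤ i → i ≤ D → dg (pml l (gb f)) i = dg (gb f) (D - pp w (D - i)) ∧
      dg (pml l (gb f)) i < 2 ^ 55 := by
    intro i hi1 hi2
    obtain ⟨g1, g2, _⟩ := hk (D - i) (by omega)
    have e : D - (D - i) = i := by omega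
    rw [e] at g2
    have g3 := sOK_spec l _ _ (gb f) g2
    refine ⟨g3, ?_⟩
    rw [g3]
    exact high_bit (hX f hf) (hH _ (by omega) (by omega))
  have e0 : D - (D - k) = k := by omega
  refine ⟨hp, fun h0 => ?_, fun h0 => ?_⟩
  · rcases hcase with ⟨_, hN, _⟩ | ⟨h1, _⟩
    · have h2 : dg (Nat.land (gb (h f)) N) (D - k) =
          dg (Nat.land (pml l (gb f)) N) (D - k) := by rw [c1]
      rw [dg_and, dg_and, hN, and_full (dg_lt _ _), and_full (dg_lt _ _)] at h2
      rw [h2, (hZ (D - k) (by omega) (by omega)).1, e0]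
    · exact absurd h0 h1
  · rcases hcase with ⟨h1, _⟩ | ⟨_, hS, hV⟩
    · exact absurd h1 h0
    · have hsum : ∀ i ≤ D - k, dg (Nat.land (gb (h f)) S) i +
          dg (Nat.land (pml l (gb f)) S) i < 2 ^ 56 := by
        intro i hi
        rw [dg_and, dg_and]
        rcases Nat.eq_zero_or_pos i with h2 | h2
        · subst h2
          rw [hS0]
          simp
        · obtain ⟨_, _, g3⟩ := hk (D - i) (by omega)
          have e : D - (D - i) = i := by omega
          rw [e] at g3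
          rcases g3 with ⟨_, _, g4⟩ | ⟨_, g4, _⟩
          · rw [g4]
            simp
          · rw [g4, and_full (dg_lt _ _), and_full (dg_lt _ _)]
            have g5 := high_bit (hX (h f) (hh f hf)) (hH i h2 (by omega))
            have g6 := (hZ i h2 (by omega)).2
            omega
      have h3 := dg_add hsum
      have h4 : Nat.land (gb (h f)) S + Nat.land (pml l (gb f)) S = V := c2
      rw [h4, hV, dg_and, dg_and, hS, and_full (dg_lt _ _), and_full (dg_lt _ _),
        (hZ (D - k) (by omega) (by omega)).1, e0] at h3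
      exact h3.symm

/-- digits of a record from its upper part -/
theorem el_of {g a b D k : ℕ} (sh : ℕ) (hg : g = Nat.add a (Nat.shiftLeft b sh))
    (hsh : sh = 56 * (172 - D)) (ha : a < 2 ^ sh) (hD : D ≤ 172) (hk : k < D) :
    Nat.mod (Nat.shiftRight g (56 * (172 - k))) 72057594037927936 = dg b (D - k) := by
  have h1 : Nat.mod (Nat.shiftRight g (56 * (172 - k))) 72057594037927936 = dg g (172 - k) := rfl
  rw [h1, dg_eq, dg_eq, hg]
  have e1 : Nat.add a (Nat.shiftLeft b sh) = a + b * 2 ^ (56 * (172 - D)) := by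
    rw [← hsh, ← Nat.shiftLeft_eq]
    rfl
  rw [e1]
  have e2 : 172 - k = (172 - D) + (D - k) := by omega
  rw [e2, dgt_hi (by rw [← hsh]; exact ha)]

/-- action of the group element `w` on flags -/
noncomputable def hh (w f : ℕ) : ℕ := tb (gfT.getD w 0) 10 1024 f

/-- the records of type `t` are transformed by the group element `w` -/
def Good (t w : ℕ) : Prop := ∀ f < 1024, ∀ k < dm t, pp w k < dm t ∧
  (ss w k = 0 → el t (hh w f) k = el t f (pp w k)) ∧
  (ss w k ≠ 0 → el t (hh w f) k + el t f (pp w k) = 2 * ofs t)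

theorem brf {α : Type} (x y : α) : @Bool.rec (fun _ => α) x y false = x := rfl

theorem brt {α : Type} (x y : α) : @Bool.rec (fun _ => α) x y true = y := rfl

theorem ble_t {a b : ℕ} (h : a ≤ b) : Nat.ble a b = true := Nat.ble_eq_true_of_le h

theorem ble_f {a b : ℕ} (h : b < a) : Nat.ble a b = false := by
  rw [Bool.eq_false_iff]
  intro h1
  have := Nat.le_of_ble_eq_true h1
  omega

end Pool.Agent.Y809.Q440
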